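import Mathlib
import Pool.Agent.K7.H14.CF.Stm

/-!
# Project CF, job FF: additive maps of a finite field of characteristic three on the unit circle

Author: helper15.
-/

set_option autoImplicit false

namespace Pool.Agent.K7.H15.CF

open Finset Pool.Agent.K7.H14.CF

/-- power sums over the roots of unity -/
lemma gsum {K : Type} [Field K] {N : ℕ} {ζ : K} (hζ : IsPrimitiveRoot ζ N) (hN : (N : K) = 1) (m : ℤ) :
    ∑ i ∈ range N, (ζ ^ i) ^ m = if (N : ℤ) ∣ m then 1 else 0 := by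
  have h1 : ∀ i : ℕ, (ζ ^ i) ^ m = (ζ ^ m) ^ i := by
    intro i
    rw [← zpow_natCast, ← zpow_natCast, ← zpow_mul, ← zpow_mul, mul_comm]
  simp_rw [h1]
  split_ifs with h
  · rw [(hζ.zpow_eq_one_iff_dvd m).2 h]
    simp [hN]
  · have h2 : ζ ^ m ≠ 1 := fun h' => h ((hζ.zpow_eq_one_iff_dvd m).1 h')
    have h3 := geom_sum_mul (ζ ^ m) N
    have h4 : (ζ ^ m) ^ N = 1 := by
      rw [← zpow_natCast, ← zpow_mul, mul_comm, zpow_mul, zpow_natCast, hζ.pow_eq_one, one_zpow]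
    rw [h4, sub_self] at h3
    exact (mul_eq_zero.1 h3).resolve_right (sub_ne_zero.2 h2)

lemma pair {K : Type} [Field K] {N : ℕ} {ζ : K} (hζ : IsPrimitiveRoot ζ N) (hζ0 : ζ ≠ 0)
    (hN : (N : K) = 1) (x y s t : K) (a b : ℕ) (h1 : ¬ (N : ℤ) ∣ (a : ℤ) - b - 4)
    (h2 : ¬ (N : ℤ) ∣ -(a : ℤ) + b - 4) (h3 : ¬ (N : ℤ) ∣ -(a : ℤ) - b - 4)
    (h4 : (N : ℤ) ∣ (a : ℤ) + b - 4 ↔ a + b = 4) :
    ∑ i ∈ range N, (ζ ^ i) ^ (-4 : ℤ) * ((x * (ζ ^ i) ^ a + y * ((ζ ^ i)⁻¹) ^ a) *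
      (s * (ζ ^ i) ^ b + t * ((ζ ^ i)⁻¹) ^ b)) = if a + b = 4 then x * s else 0 := by
  have e : ∀ i ∈ range N, (ζ ^ i) ^ (-4 : ℤ) * ((x * (ζ ^ i) ^ a + y * ((ζ ^ i)⁻¹) ^ a) *
      (s * (ζ ^ i) ^ b + t * ((ζ ^ i)⁻¹) ^ b)) =
      x * s * (ζ ^ i) ^ ((a : ℤ) + b - 4) + x * t * (ζ ^ i) ^ ((a : ℤ) - b - 4) +
        y * s * (ζ ^ i) ^ (-(a : ℤ) + b - 4) + y * t * (ζ ^ i) ^ (-(a : ℤ) - b - 4) := by
    intro i _
    have hz : ζ ^ i ≠ 0 := pow_ne_zero _ hζ0
    generalize ζ ^ i = z at hz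
    have z1 : z ^ ((a : ℤ) + b - 4) = z ^ a * z ^ b * z ^ (-4 : ℤ) := by
      rw [sub_eq_add_neg, zpow_add₀ hz, zpow_add₀ hz, zpow_natCast, zpow_natCast]
    have z2 : z ^ ((a : ℤ) - b - 4) = z ^ a * (z⁻¹) ^ b * z ^ (-4 : ℤ) := by
      rw [sub_eq_add_neg, zpow_add₀ hz, sub_eq_add_neg, zpow_add₀ hz, zpow_natCast, zpow_neg,
        zpow_natCast, inv_pow]
    have z3 : z ^ (-(a : ℤ) + b - 4) = (z⁻¹) ^ a * z ^ b * z ^ (-4 : ℤ) := by
      rw [sub_eq_add_neg, zpow_add₀ hz, zpow_add₀ hz, zpow_natCast, zpow_neg,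
        zpow_natCast, inv_pow]
    have z4 : z ^ (-(a : ℤ) - b - 4) = (z⁻¹) ^ a * (z⁻¹) ^ b * z ^ (-4 : ℤ) := by
      rw [sub_eq_add_neg, zpow_add₀ hz, sub_eq_add_neg, zpow_add₀ hz, zpow_neg, zpow_neg,
        zpow_natCast, zpow_natCast, inv_pow, inv_pow]
    rw [z1, z2, z3, z4]
    ring
  rw [sum_congr rfl e, sum_add_distrib, sum_add_distrib, sum_add_distrib, ← mul_sum, ← mul_sum,
    ← mul_sum, ← mul_sum, gsum hζ hN, gsum hζ hN, gsum hζ hN, gsum hζ hN, if_neg h1, if_neg h2,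
    if_neg h3]
  by_cases h : a + b = 4
  · rw [if_pos h, if_pos (h4.2 h)]
    ring
  · rw [if_neg h, if_neg (fun h' => h (h4.1 h'))]
    ring

lemma not_dvd_small {N : ℕ} {m : ℤ} (h0 : m ≠ 0) (h1 : -(N : ℤ) < m) (h2 : m < N) :
    ¬ (N : ℤ) ∣ m := by
  intro h
  exact h0 (Int.eq_zero_of_abs_lt_dvd h (abs_lt.2 ⟨h1, h2⟩))

lemma three_pow_ne {j l : ℕ} : (3 : ℤ) ^ j - 3 ^ l - 4 ≠ 0 := by
  intro h
  rcases Nat.eq_zero_or_pos l with rfl | hl
  · rw [pow_zero] at h
    rcases Nat.lt_or_ge j 2 with hj | hj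
    · interval_cases j
      · norm_num at h
      · norm_num at h
    · have : (3 : ℤ) ^ 2 ≤ 3 ^ j := pow_le_pow_right₀ (by norm_num) hj
      norm_num at this
      linarith
  · rcases Nat.eq_zero_or_pos j with rfl | hj
    · have : (0 : ℤ) < 3 ^ l := by positivity
      rw [pow_zero] at h
      linarith
    · obtain ⟨j', rfl⟩ : ∃ j', j = j' + 1 := ⟨j - 1, by omega⟩
      obtain ⟨l', rfl⟩ : ∃ l', l = l' + 1 := ⟨l - 1, by omega⟩
      rw [pow_succ, pow_succ] at h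
      omega

lemma three_pow_add {j l : ℕ} : 3 ^ j + 3 ^ l = 4 ↔ (j = 0 ∧ l = 1) ∨ (j = 1 ∧ l = 0) := by
  constructor
  · intro h
    have pj : 0 < 3 ^ j := by positivity
    have pl : 0 < 3 ^ l := by positivity
    have hj : j < 2 := by
      by_contra hj
      have : 3 ^ 2 ≤ 3 ^ j := Nat.pow_le_pow_right (by norm_num) (by omega)
      omega
    have hl : l < 2 := by
      by_contra hl
      have : 3 ^ 2 ≤ 3 ^ l := Nat.pow_le_pow_right (by norm_num) (by omega)
      omega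
    interval_cases j <;> interval_cases l <;> simp_all
  · rintro (⟨rfl, rfl⟩ | ⟨rfl, rfl⟩) <;> norm_num

lemma zsq : ∀ t : ZMod 3, t ≠ 0 → t ^ 2 = 1 := by decide

theorem ff : StFF := by
  intro k _ _ h3 hsq lam mu hlm
  classical
  have : Fact (Nat.Prime 3) := ⟨Nat.prime_three⟩
  have : CharP k 3 := by
    have h := ringChar.dvd (R := k) (x := 3) (by exact_mod_cast h3)
    rcases (Nat.dvd_prime Nat.prime_three).1 h with h1 | h1
    · exact absurd h1 CharP.ringChar_ne_one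
    · rw [← h1]
      exact ringChar.charP k
  let _ : Algebra (ZMod 3) k := ZMod.algebra k 3
  cases nonempty_fintype k
  set n := Module.finrank (ZMod 3) k with hn
  have hcard : Fintype.card k = 3 ^ n := by
    rw [Module.card_eq_pow_finrank (K := ZMod 3) (V := k), ZMod.card]
  by_contra hcon
  have hn0 : n ≠ 0 := Module.finrank_pos.ne'
  have hn1 : n ≠ 1 := by
    intro h
    rw [h, pow_one] at hcard
    apply hcon
    intro x
    have := FiniteField.pow_card x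
    rwa [hcard] at this
  have hn2 : n ≠ 2 := by
    intro h
    rw [h] at hcard
    apply hsq
    rw [FiniteField.isSquare_neg_one_iff, hcard]
    norm_num
  have hn3 : 3 ≤ n := by omega
  have hB : (Algebra.traceForm (ZMod 3) k).Nondegenerate := traceForm_nondegenerate _ _
  obtain ⟨A, hA⟩ : ∃ A : k, ∀ x, Algebra.trace (ZMod 3) k (A * x) = lam x :=
    ⟨_, fun x => LinearMap.BilinForm.apply_toDual_symm_apply (hB := hB) (lam.toZModLinearMap 3) x⟩
  obtain ⟨A', hA'⟩ : ∃ A : k, ∀ x, Algebra.trace (ZMod 3) k (A * x) = mu x :=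
    ⟨_, fun x => LinearMap.BilinForm.apply_toDual_symm_apply (hB := hB) (mu.toZModLinearMap 3) x⟩
  set K := AlgebraicClosure k with hK
  set ι : k →+* K := algebraMap k K with hι
  have : CharP K 3 := charP_of_injective_algebraMap (FaithfulSMul.algebraMap_injective k K) 3
  have h3K : (3 : K) = 0 := by
    have := CharP.cast_eq_zero K 3
    exact_mod_cast this
  obtain ⟨i, hi⟩ := IsAlgClosed.exists_eq_mul_self (-1 : K)
  set q := 3 ^ n with hq
  have hq27 : 27 ≤ q := by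
    calc 27 = 3 ^ 3 := by norm_num
      _ ≤ 3 ^ n := Nat.pow_le_pow_right (by norm_num) hn3
  have hqodd : Odd q := Odd.pow (by decide)
  have hfix : ∀ x : K, x ^ q = x → ∃ y : k, ι y = x := by
    intro x hx
    have hne : (Polynomial.X ^ q - Polynomial.X : Polynomial K) ≠ 0 :=
      FiniteField.X_pow_card_sub_X_ne_zero K (by omega)
    have hsub : (univ : Finset k).image ι ⊆
        (Polynomial.X ^ q - Polynomial.X : Polynomial K).roots.toFinset := by
      intro y hy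
      obtain ⟨w, -, rfl⟩ := mem_image.1 hy
      rw [Multiset.mem_toFinset, Polynomial.mem_roots hne, Polynomial.IsRoot.def]
      simp only [Polynomial.eval_sub, Polynomial.eval_pow, Polynomial.eval_X]
      rw [← map_pow, ← hcard, FiniteField.pow_card, sub_self]
    have hle : (Polynomial.X ^ q - Polynomial.X : Polynomial K).roots.toFinset.card ≤
        ((univ : Finset k).image ι).card := by
      rw [card_image_of_injective _ ι.injective, card_univ, hcard]
      refine (Multiset.toFinset_card_le _).trans ((Polynomial.card_roots' _).trans ?_)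
      exact (FiniteField.X_pow_card_sub_X_natDegree_eq K (by omega)).le
    have heq := eq_of_subset_of_card_le hsub hle
    have hxm : x ∈ (Polynomial.X ^ q - Polynomial.X : Polynomial K).roots.toFinset := by
      rw [Multiset.mem_toFinset, Polynomial.mem_roots hne, Polynomial.IsRoot.def]
      simp only [Polynomial.eval_sub, Polynomial.eval_pow, Polynomial.eval_X]
      rw [hx, sub_self]
    rw [← heq] at hxm
    obtain ⟨w, -, hw⟩ := mem_image.1 hxm
    exact ⟨w, hw⟩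
  have hnot : ∀ w : k, ι w ≠ i := by
    intro w hw
    apply hsq
    refine ⟨w, ι.injective ?_⟩
    rw [map_neg, map_one, map_mul, hw, hi]
  have hiq : i ^ q = -i := by
    have h1 : (i ^ q) ^ 2 = i ^ 2 := by
      rw [← pow_mul, mul_comm, pow_mul, pow_two, ← hi, hqodd.neg_one_pow]
    rcases sq_eq_sq_iff_eq_or_eq_neg.1 h1 with h | h
    · obtain ⟨w, hw⟩ := hfix i h
      exact absurd hw (hnot w)
    · exact h
  have hq0 : ((q : ℕ) : K) = 0 := by
    rw [hq]
    push_cast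
    rw [h3K, zero_pow hn0]
  set N := q + 1 with hNd
  have hN : ((N : ℕ) : K) = 1 := by
    rw [hNd]
    push_cast
    rw [hq0, zero_add]
  have : NeZero ((N : ℕ) : K) := ⟨by rw [hN]; exact one_ne_zero⟩
  obtain ⟨ζ, hζ⟩ := HasEnoughRootsOfUnity.exists_primitiveRoot K N
  have hζ0 : ζ ≠ 0 := hζ.ne_zero (by omega)
  set c : K := -(ι A) + i * ι A' with hc
  set d : K := -(ι A) - i * ι A' with hd
  have hfrob : ∀ (x y : K) (j : ℕ), (x + y) ^ 3 ^ j = x ^ 3 ^ j + y ^ 3 ^ j :=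
    fun x y j => add_pow_char_pow ..
  have hf : ∀ z : K, z ≠ 0 → z ^ q = z⁻¹ →
      (∑ j ∈ range n, (c ^ 3 ^ j * z ^ 3 ^ j + d ^ 3 ^ j * (z⁻¹) ^ 3 ^ j)) ^ 2 = 1 := by
    intro z hz hzq
    have hzi : (z⁻¹) ^ q = z := by rw [inv_pow, hzq, inv_inv]
    have hzz : z * z⁻¹ = 1 := mul_inv_cancel₀ hz
    obtain ⟨a, ha⟩ := hfix (-(z + z⁻¹)) (by
      rw [hqodd.neg_pow, hq, hfrob, ← hq, hzq, hzi]
      ring)
    obtain ⟨b, hb⟩ := hfix (i * (z + -z⁻¹)) (by
      rw [mul_pow, hiq, hq, hfrob, ← hq, hqodd.neg_pow, hzq, hzi]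
      ring)
    have hab : a ^ 2 + b ^ 2 = 1 := by
      apply ι.injective
      rw [map_add, map_pow, map_pow, ha, hb, map_one]
      linear_combination (-(z + -z⁻¹) ^ 2) * hi + 4 * hzz + h3K
    have h1 := hlm a b hab
    have h2 : (lam a + mu b) ^ 2 = 1 := zsq _ h1
    have htr : ∀ u v : k, ι (algebraMap (ZMod 3) k (Algebra.trace (ZMod 3) k (u * v))) =
        ∑ j ∈ range n, (ι u * ι v) ^ 3 ^ j := by
      intro u v
      rw [FiniteField.algebraMap_trace_eq_sum_pow, map_sum]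
      apply sum_congr rfl
      intro j _
      rw [map_pow, map_mul, Nat.card_zmod]
    have h4 : ι (algebraMap (ZMod 3) k (lam a + mu b)) =
        ∑ j ∈ range n, (c ^ 3 ^ j * z ^ 3 ^ j + d ^ 3 ^ j * (z⁻¹) ^ 3 ^ j) := by
      rw [map_add, map_add, ← hA, ← hA', htr, htr, ← sum_add_distrib]
      apply sum_congr rfl
      intro j _
      rw [← hfrob, ← mul_pow, ← mul_pow, ← hfrob, ha, hb]
      congr 1
      rw [hc, hd]
      ring
    rw [← h4, ← map_pow, ← map_pow, h2, map_one, map_one]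
  -- the sum over the roots of unity
  have hz1 : ∀ m : ℕ, (ζ ^ m) ^ q = (ζ ^ m)⁻¹ := by
    intro m
    apply eq_inv_of_mul_eq_one_left
    rw [← pow_succ, ← hNd, ← pow_mul, mul_comm, pow_mul, hζ.pow_eq_one, one_pow]
  have hN4 : ¬ (N : ℤ) ∣ (-4 : ℤ) := not_dvd_small (by norm_num) (by omega) (by omega)
  have hS1 : ∑ m ∈ range N, (ζ ^ m) ^ (-4 : ℤ) *
      (∑ j ∈ range n, (c ^ 3 ^ j * (ζ ^ m) ^ 3 ^ j + d ^ 3 ^ j * ((ζ ^ m)⁻¹) ^ 3 ^ j)) ^ 2 = 0 := by
    have e : ∀ m ∈ range N, (ζ ^ m) ^ (-4 : ℤ) *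
        (∑ j ∈ range n, (c ^ 3 ^ j * (ζ ^ m) ^ 3 ^ j + d ^ 3 ^ j * ((ζ ^ m)⁻¹) ^ 3 ^ j)) ^ 2 =
        (ζ ^ m) ^ (-4 : ℤ) := by
      intro m _
      rw [hf _ (pow_ne_zero _ hζ0) (hz1 m), mul_one]
    rw [sum_congr rfl e, gsum hζ hN, if_neg hN4]
  have hpow : ∀ j ∈ range n, ((3 ^ j : ℕ) : ℤ) * 3 ≤ q := by
    intro j hj
    rw [mem_range] at hj
    have : 3 ^ (j + 1) ≤ 3 ^ n := Nat.pow_le_pow_right (by norm_num) hj
    rw [pow_succ] at this
    rw [hq]
    exact_mod_cast this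
  have hS2 : ∑ m ∈ range N, (ζ ^ m) ^ (-4 : ℤ) *
      (∑ j ∈ range n, (c ^ 3 ^ j * (ζ ^ m) ^ 3 ^ j + d ^ 3 ^ j * ((ζ ^ m)⁻¹) ^ 3 ^ j)) ^ 2 =
      ∑ j ∈ range n, ∑ l ∈ range n, if 3 ^ j + 3 ^ l = 4 then c ^ 3 ^ j * c ^ 3 ^ l else 0 := by
    have e : ∀ m ∈ range N, (ζ ^ m) ^ (-4 : ℤ) *
        (∑ j ∈ range n, (c ^ 3 ^ j * (ζ ^ m) ^ 3 ^ j + d ^ 3 ^ j * ((ζ ^ m)⁻¹) ^ 3 ^ j)) ^ 2 =
        ∑ j ∈ range n, ∑ l ∈ range n, (ζ ^ m) ^ (-4 : ℤ) *
          ((c ^ 3 ^ j * (ζ ^ m) ^ 3 ^ j + d ^ 3 ^ j * ((ζ ^ m)⁻¹) ^ 3 ^ j) *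
          (c ^ 3 ^ l * (ζ ^ m) ^ 3 ^ l + d ^ 3 ^ l * ((ζ ^ m)⁻¹) ^ 3 ^ l)) := by
      intro m _
      rw [pow_two, sum_mul_sum, mul_sum]
      apply sum_congr rfl
      intro j _
      rw [mul_sum]
    rw [sum_congr rfl e, sum_comm]
    apply sum_congr rfl
    intro j hj
    rw [sum_comm]
    apply sum_congr rfl
    intro l hl
    have bj := hpow j hj
    have bl := hpow l hl
    have pj : (0 : ℤ) < ((3 ^ j : ℕ) : ℤ) := by positivity
    have pl : (0 : ℤ) < ((3 ^ l : ℕ) : ℤ) := by positivity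
    have cNq : (N : ℤ) = q + 1 := by rw [hNd]; push_cast; ring
    have cq : (27 : ℤ) ≤ q := by exact_mod_cast hq27
    apply pair hζ hζ0 hN
    · apply not_dvd_small
      · have := @three_pow_ne j l
        push_cast
        exact this
      · linarith
      · linarith
    · apply not_dvd_small
      · have := @three_pow_ne l j
        push_cast
        intro h
        apply this
        linarith
      · linarith
      · linarith
    · apply not_dvd_small
      · linarith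
      · linarith
      · linarith
    · constructor
      · intro h
        by_contra hne
        refine not_dvd_small ?_ ?_ ?_ h
        · intro h0
          apply hne
          have : ((3 ^ j : ℕ) : ℤ) + ((3 ^ l : ℕ) : ℤ) = ((4 : ℕ) : ℤ) := by
            push_cast at h0 ⊢
            linarith
          exact_mod_cast this
        · linarith
        · linarith
      · intro h
        have : ((3 ^ j : ℕ) : ℤ) + ((3 ^ l : ℕ) : ℤ) = 4 := by exact_mod_cast h
        rw [this, sub_self]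
        exact dvd_zero _
  have hS3 : ∑ j ∈ range n, ∑ l ∈ range n,
      (if 3 ^ j + 3 ^ l = 4 then c ^ 3 ^ j * c ^ 3 ^ l else 0) = 2 * c ^ 4 := by
    have e : ∀ j ∈ range n, ∑ l ∈ range n, (if 3 ^ j + 3 ^ l = 4 then c ^ 3 ^ j * c ^ 3 ^ l else 0) =
        (if j = 0 then c ^ 4 else 0) + (if j = 1 then c ^ 4 else 0) := by
      intro j _
      have e2 : ∀ l ∈ range n, (if 3 ^ j + 3 ^ l = 4 then c ^ 3 ^ j * c ^ 3 ^ l else 0) =
          (if l = 1 then (if j = 0 then c ^ 4 else 0) else 0) +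
            (if l = 0 then (if j = 1 then c ^ 4 else 0) else 0) := by
        intro l _
        by_cases h : 3 ^ j + 3 ^ l = 4
        · rw [if_pos h, ← pow_add, h]
          rcases three_pow_add.1 h with ⟨rfl, rfl⟩ | ⟨rfl, rfl⟩ <;> simp
        · rw [if_neg h]
          rw [three_pow_add] at h
          push Not at h
          by_cases hj0 : j = 0
          · subst hj0
            simp [h.1 rfl]
          · by_cases hj1 : j = 1
            · subst hj1
              simp [h.2 rfl]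
            · simp [hj0, hj1]
      rw [sum_congr rfl e2, sum_add_distrib, sum_ite_eq', sum_ite_eq', if_pos (mem_range.2 (by omega)),
        if_pos (mem_range.2 (by omega))]
    rw [sum_congr rfl e, sum_add_distrib, sum_ite_eq', sum_ite_eq', if_pos (mem_range.2 (by omega)),
      if_pos (mem_range.2 (by omega))]
    ring
  have hc0 : c = 0 := by
    rw [hS2, hS3] at hS1
    have h2 : (2 : K) ≠ 0 := by
      intro h
      have : (1 : K) = 0 := by linear_combination h3K - h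
      exact one_ne_zero this
    exact pow_eq_zero_iff (by norm_num) |>.1 ((mul_eq_zero.1 hS1).resolve_left h2)
  by_cases hz : A' = 0
  · have hA0 : A = 0 := by
      rw [hc, hz, map_zero, mul_zero, add_zero, neg_eq_zero] at hc0
      exact (map_eq_zero_iff ι ι.injective).1 hc0
    apply hlm 1 0 (by ring)
    rw [← hA, hA0, zero_mul, map_zero, map_zero, add_zero]
  · apply hnot (A / A')
    have h1 : ι A' ≠ 0 := (map_ne_zero_iff ι ι.injective).2 hz
    rw [map_div₀, div_eq_iff h1]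
    rw [hc] at hc0
    linear_combination -hc0

end Pool.Agent.K7.H15.CF
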