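import Pool.Agent.K7.H36.CN.Defs

/-!
# Project CN, job SPACE: the quotient of the switch network is a compact geodesic space
-/

set_option autoImplicit false

namespace Pool.Agent.K7.H15.CN

open Filter Topology Set
open Pool.Agent.K7.H36.CN

/-! ## Geodesics from approximations -/

theorem geo_of_approx {X : Type} [MetricSpace X] [CompactSpace X]
    (h : ∀ (x y : X) (ε : ℝ), 0 < ε → ∃ γ : ℝ → X, (∀ s t, dist (γ s) (γ t) ≤ |s - t|) ∧ γ 0 = x ∧
      dist (γ (dist x y)) y ≤ ε) : Geo X := by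
  intro x y
  let C : ℕ → Set (ℝ → X) := fun n => {γ | (∀ s t, dist (γ s) (γ t) ≤ |s - t|) ∧ γ 0 = x ∧
    dist (γ (dist x y)) y ≤ 1 / ((n : ℝ) + 1)}
  have hcl : ∀ n, IsClosed (C n) := by
    intro n
    have h1 : IsClosed {γ : ℝ → X | ∀ s t, dist (γ s) (γ t) ≤ |s - t|} := by
      simp only [Set.ofPred_forall]
      refine isClosed_iInter fun s => isClosed_iInter fun t => ?_
      exact isClosed_le ((continuous_apply s).dist (continuous_apply t)) continuous_const
    have h2 : IsClosed {γ : ℝ → X | γ 0 = x} := isClosed_eq (continuous_apply 0) continuous_const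
    have h3 : IsClosed {γ : ℝ → X | dist (γ (dist x y)) y ≤ 1 / ((n : ℝ) + 1)} :=
      isClosed_le ((continuous_apply _).dist continuous_const) continuous_const
    exact h1.inter (h2.inter h3)
  have hne : ∀ n, (C n).Nonempty := by
    intro n
    obtain ⟨γ, h1, h2, h3⟩ := h x y (1 / ((n : ℝ) + 1)) (by positivity)
    exact ⟨γ, h1, h2, h3⟩
  have hsub : ∀ n, C (n + 1) ⊆ C n := by
    rintro n γ ⟨h1, h2, h3⟩
    refine ⟨h1, h2, h3.trans ?_⟩
    apply one_div_le_one_div_of_le (by positivity)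
    push_cast
    linarith
  obtain ⟨γ, hγ⟩ := IsCompact.nonempty_iInter_of_sequence_nonempty_isCompact_isClosed C hsub hne
    (hcl 0).isCompact hcl
  rw [mem_iInter] at hγ
  refine ⟨γ, LipschitzWith.of_dist_le_mul fun s t => ?_, (hγ 0).2.1, ?_⟩
  · rw [NNReal.coe_one, one_mul, Real.dist_eq]
    exact (hγ 0).1 s t
  · rw [← dist_le_zero]
    refine le_of_forall_pos_lt_add fun ε hε => ?_
    obtain ⟨n, hn⟩ := exists_nat_one_div_lt hε
    have := (hγ n).2.2
    linarith

/-- gluing of `1`-Lipschitz paths -/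
theorem glue {X : Type} [PseudoMetricSpace X] {γ₁ γ₂ : ℝ → X}
    (h1 : ∀ s t, dist (γ₁ s) (γ₁ t) ≤ |s - t|) (h2 : ∀ s t, dist (γ₂ s) (γ₂ t) ≤ |s - t|)
    {c : ℝ} (hc : γ₁ c = γ₂ 0) :
    ∀ s t, dist ((fun t => if t ≤ c then γ₁ t else γ₂ (t - c)) s)
      ((fun t => if t ≤ c then γ₁ t else γ₂ (t - c)) t) ≤ |s - t| := by
  have key : ∀ s t, s ≤ t → dist ((fun t => if t ≤ c then γ₁ t else γ₂ (t - c)) s)
      ((fun t => if t ≤ c then γ₁ t else γ₂ (t - c)) t) ≤ |s - t| := by
    intro s t hst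
    simp only
    by_cases hs : s ≤ c
    · rw [if_pos hs]
      by_cases ht : t ≤ c
      · rw [if_pos ht]
        exact h1 s t
      · rw [if_neg ht]
        push Not at ht
        have e1 := h1 s c
        have e2 := h2 0 (t - c)
        rw [← hc] at e2
        have e3 := dist_triangle (γ₁ s) (γ₁ c) (γ₂ (t - c))
        rw [abs_of_nonpos (by linarith)] at e1 e2 ⊢
        linarith
    · rw [if_neg hs]
      have ht : ¬ t ≤ c := fun h => hs (hst.trans h)
      rw [if_neg ht]
      have e1 := h2 (s - c) (t - c)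
      rwa [show s - c - (t - c) = s - t by ring] at e1
  intro s t
  rcases le_total s t with h | h
  · exact key s t h
  · rw [dist_comm, abs_sub_comm]
    exact key t s h

/-! ## Elementary properties of the network -/

section net

variable {S : ℕ}

lemma erase_update (d : Dig S) (a : Sh S) (v : Fin 16) :
    erase d.1 d.2.1 (Function.update a d v) = erase d.1 d.2.1 a := by
  funext e
  unfold erase
  by_cases h : e.1 = d.1 ∧ e.2.1 = d.2.1
  · rw [if_pos h, if_pos h]
  · rw [if_neg h, if_neg h]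
    rw [Function.update_of_ne]
    rintro rfl
    exact h ⟨rfl, rfl⟩

lemma off_update (d : Dig S) (a : Sh S) (v : Fin 16) : off d (Function.update a d v) = off d a := by
  unfold off phi
  rw [erase_update]

lemma conn_nonneg {p q : ℝ × Sh S} {L : ℝ} (h : Conn p q L) : 0 ≤ L := by
  induction h with
  | move x y a => exact abs_nonneg _
  | jump x a d v h => exact le_refl 0
  | trans _ _ h1 h2 => exact add_nonneg h1 h2

lemma conn_symm {p q : ℝ × Sh S} {L : ℝ} (h : Conn p q L) : Conn q p L := by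
  induction h with
  | move x y a =>
    rw [abs_sub_comm]
    exact Conn.move y x a
  | jump x a d v h =>
    have h1 : Om d (x, Function.update a d v) := by
      obtain ⟨n, h1, h2⟩ := h
      exact ⟨n, h1, by rw [off_update]; exact h2⟩
    have h2 := Conn.jump x (Function.update a d v) d (a d) h1
    rwa [Function.update_idem, Function.update_eq_self] at h2
  | trans _ _ h1 h2 =>
    rw [add_comm]
    exact h2.trans h1

lemma isBlk_shift {n : ℤ} {l : Fin S} {p : Bool} (m : ℤ) (h : IsBlk n l p) :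
    IsBlk (n + m * 2 ^ (S + 3)) l p := by
  obtain ⟨i, rfl⟩ := h
  obtain ⟨e, he⟩ : ∃ e : ℕ, S = l + e := ⟨S - l, by have := l.2; omega⟩
  refine ⟨i + m * 2 ^ (e + 1), ?_⟩
  have h2 : (2 : ℤ) ^ (S + 3) = 2 ^ (l : ℕ) * 2 ^ (e + 1) * 4 := by
    rw [← pow_add, show (4 : ℤ) = 2 ^ 2 by norm_num, ← pow_add]
    congr 1
    omega
  rw [h2]
  ring

lemma om_shift {d : Dig S} {p : ℝ × Sh S} (m : ℤ) (h : Om d p) :
    Om d (p.1 + m * (Per S : ℝ), p.2) := by
  obtain ⟨n, h1, h2⟩ := h
  refine ⟨n + m * 2 ^ (S + 3), isBlk_shift m h1, ?_⟩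
  simp only
  rw [h2]
  unfold Per
  push_cast
  ring

lemma conn_shift {p q : ℝ × Sh S} {L : ℝ} (m : ℤ) (h : Conn p q L) :
    Conn (p.1 + m * (Per S : ℝ), p.2) (q.1 + m * (Per S : ℝ), q.2) L := by
  induction h with
  | move x y a =>
    have := Conn.move (x + m * (Per S : ℝ)) (y + m * (Per S : ℝ)) a
    rwa [show x + m * (Per S : ℝ) - (y + m * (Per S : ℝ)) = x - y by ring] at this
  | jump x a d v h => exact Conn.jump _ a d v (om_shift m h)
  | trans _ _ h1 h2 => exact h1.trans h2

lemma conn_refl (p : ℝ × Sh S) : Conn p p 0 := by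
  have := Conn.move p.1 p.1 p.2
  rwa [sub_self, abs_zero] at this

lemma cn_of_conn {p q : ℝ × Sh S} {L : ℝ} (h : Conn p q L) : Cn p q L := by
  refine ⟨0, ?_⟩
  simpa using h

lemma cn_symm {p q : ℝ × Sh S} {L : ℝ} (h : Cn p q L) : Cn q p L := by
  obtain ⟨m, hm⟩ := h
  refine ⟨-m, ?_⟩
  have := conn_shift (-m) (conn_symm hm)
  simp only at this
  convert this using 2
  push_cast
  ring

lemma cn_trans {p q r : ℝ × Sh S} {L L' : ℝ} (h : Cn p q L) (h' : Cn q r L') :
    Cn p r (L + L') := by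
  obtain ⟨m, hm⟩ := h
  obtain ⟨m', hm'⟩ := h'
  refine ⟨m' + m, hm.trans ?_⟩
  have := conn_shift m hm'
  simp only at this
  convert this using 2
  push_cast
  ring

lemma bdd (p q : ℝ × Sh S) : BddBelow {L | Cn p q L} :=
  ⟨0, by rintro L ⟨m, hm⟩; exact conn_nonneg hm⟩

lemma D_le {p q : ℝ × Sh S} {L : ℝ} (h : Cn p q L) : D p q ≤ L := csInf_le (bdd p q) h

lemma D_nonneg (p q : ℝ × Sh S) : 0 ≤ D p q := by
  apply Real.sInf_nonneg
  rintro L ⟨m, hm⟩
  exact conn_nonneg hm

lemma D_self (p : ℝ × Sh S) : D p p = 0 :=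
  le_antisymm (D_le (cn_of_conn (conn_refl p))) (D_nonneg _ _)

lemma D_comm (p q : ℝ × Sh S) : D p q = D q p := by
  unfold D
  congr 1
  ext L
  exact ⟨cn_symm, cn_symm⟩

lemma D_zero_trans {p q : ℝ × Sh S} (h : Cn p q 0) : D p q = 0 :=
  le_antisymm (D_le h) (D_nonneg _ _)

/-- the bound for the diameter -/
noncomputable def Bd (S : ℕ) : ℝ := (2 ^ (S + 1) + 2 : ℕ) * (Lam S : ℝ) + (Per S : ℝ)

lemma per_pos (S : ℕ) : (0 : ℝ) < Per S := by
  unfold Per Lam MM
  have : 0 < Fintype.card (Sh S) := Fintype.card_pos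
  exact_mod_cast (by positivity : 0 < 2 ^ (S + 3) * (64 * Fintype.card (Sh S)))

lemma bd_pos (S : ℕ) : 0 < Bd S := by
  unfold Bd
  have := per_pos S
  positivity

lemma exists_cn (hU : StUp) (p q : ℝ × Sh S) : ∃ L, L ≤ Bd S ∧ Cn p q L := by
  have h1 := hU S S le_rfl p.2 q.2 (fun d hd => absurd d.1.2 (by omega)) p.1
  set H : ℝ := (2 ^ (S + 1) + 2 : ℕ) * (Lam S : ℝ) with hH
  have hP := per_pos S
  let m : ℤ := ⌈(p.1 + H - q.1) / (Per S : ℝ)⌉
  have hm1 : (p.1 + H - q.1) / (Per S : ℝ) ≤ m := Int.le_ceil _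
  have hm2 : (m : ℝ) < (p.1 + H - q.1) / (Per S : ℝ) + 1 := Int.ceil_lt_add_one _
  rw [div_le_iff₀ hP] at hm1
  have hm3 : (m : ℝ) * Per S < (p.1 + H - q.1) + Per S := by
    calc (m : ℝ) * Per S < ((p.1 + H - q.1) / (Per S : ℝ) + 1) * Per S :=
          mul_lt_mul_of_pos_right hm2 hP
      _ = _ := by field_simp
  have h2 := h1.trans (Conn.move (p.1 + H) (q.1 + m * (Per S : ℝ)) q.2)
  refine ⟨_, ?_, m, h2⟩
  rw [abs_of_nonpos (by linarith)]
  unfold Bd
  rw [← hH]
  linarith

lemma D_triangle (hU : StUp) (p q r : ℝ × Sh S) : D p r ≤ D p q + D q r := by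
  obtain ⟨L₁, -, hL₁⟩ := exists_cn hU p q
  obtain ⟨L₂, -, hL₂⟩ := exists_cn hU q r
  refine le_of_forall_pos_lt_add fun ε hε => ?_
  obtain ⟨a, ha, ha'⟩ := exists_lt_of_csInf_lt (s := {L | Cn p q L}) ⟨L₁, hL₁⟩
    (show sInf {L | Cn p q L} < D p q + ε / 2 by unfold D; linarith)
  obtain ⟨b, hb, hb'⟩ := exists_lt_of_csInf_lt (s := {L | Cn q r L}) ⟨L₂, hL₂⟩
    (show sInf {L | Cn q r L} < D q r + ε / 2 by unfold D; linarith)
  have := D_le (cn_trans ha hb)
  linarith

lemma D_le_bd (hU : StUp) (p q : ℝ × Sh S) : D p q ≤ Bd S := by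
  obtain ⟨L, hL, h⟩ := exists_cn hU p q
  exact (D_le h).trans hL

end net

/-! ## The space -/

/-- the points of the network -/
structure Pt (S : ℕ) where
  /-- the point -/
  val : ℝ × Sh S

/-- the pseudometric -/
@[instance_reducible]
noncomputable def pm (hU : StUp) (S : ℕ) {κ : ℝ} (hκ : 0 < κ) : PseudoMetricSpace (Pt S) where
  dist p q := κ * D p.val q.val
  dist_self p := by
    show κ * D p.val p.val = 0
    rw [D_self, mul_zero]
  dist_comm p q := by
    show κ * D p.val q.val = κ * D q.val p.val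
    rw [D_comm]
  dist_triangle p q r := by
    show κ * D p.val r.val ≤ κ * D p.val q.val + κ * D q.val r.val
    rw [← mul_add]
    exact mul_le_mul_of_nonneg_left (D_triangle hU _ _ _) hκ.le

theorem exists_space (hU : StUp) (S : ℕ) {κ : ℝ} (hκ : 0 < κ) : ∃ (X : Type) (_ : MetricSpace X)
    (f : ℝ × Sh S → X), Function.Surjective f ∧ ∀ p q, dist (f p) (f q) = κ * D p q := by
  let _ := pm hU S hκ
  refine ⟨SeparationQuotient (Pt S), inferInstance, fun p => SeparationQuotient.mk ⟨p⟩, ?_, ?_⟩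
  · intro x
    obtain ⟨p, rfl⟩ := SeparationQuotient.surjective_mk x
    exact ⟨p.val, rfl⟩
  · intro p q
    rw [SeparationQuotient.dist_mk]
    rfl

theorem space : StSpace := by
  intro hU hD hR
  obtain ⟨K, hK⟩ := hD
  refine ⟨K, fun k δ hδ => ?_⟩
  obtain ⟨S, start, pos, hpos, hwin⟩ := hR k
  set κ : ℝ := δ / Bd S with hκd
  have hκ : 0 < κ := div_pos hδ (bd_pos S)
  obtain ⟨X, hX, f, hf, hdist⟩ := exists_space hU S hκ
  have hmk : ∀ p q, D p q = 0 → f p = f q := by
    intro p q h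
    rw [← dist_le_zero, hdist, h, mul_zero]
  have hj : ∀ a x y, dist (f (x, a)) (f (y, a)) ≤ κ * |x - y| := by
    intro a x y
    rw [hdist]
    exact mul_le_mul_of_nonneg_left (D_le (cn_of_conn (Conn.move x y a))) hκ.le
  have hjper : ∀ a x (m : ℤ), f (x + m * (Per S : ℝ), a) = f (x, a) := by
    intro a x m
    exact hmk _ _ (D_zero_trans ⟨m, conn_refl _⟩)
  -- compactness
  have hcomp : CompactSpace X := by
    have hcont : ∀ a, Continuous fun x => f (x, a) := by
      intro a
      have : LipschitzWith (Real.toNNReal κ) fun x => f (x, a) :=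
        LipschitzWith.of_dist_le_mul fun x y => by
          rw [Real.coe_toNNReal _ hκ.le, Real.dist_eq]
          exact hj a x y
      exact this.continuous
    have h1 : IsCompact (⋃ a : Sh S, (fun x => f (x, a)) '' (Icc 0 (Per S : ℝ))) :=
      isCompact_iUnion fun a => isCompact_Icc.image (hcont a)
    refine ⟨?_⟩
    convert h1
    symm
    rw [eq_univ_iff_forall]
    intro x
    obtain ⟨⟨u, a⟩, rfl⟩ := hf x
    rw [mem_iUnion]
    have hP := per_pos S
    let m : ℤ := ⌊u / (Per S : ℝ)⌋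
    have hm1 : (m : ℝ) ≤ u / (Per S : ℝ) := Int.floor_le _
    have hm2 : u / (Per S : ℝ) < m + 1 := Int.lt_floor_add_one _
    rw [le_div_iff₀ hP] at hm1
    rw [div_lt_iff₀ hP] at hm2
    refine ⟨a, u - m * (Per S : ℝ), ⟨by linarith, by linarith⟩, ?_⟩
    have h2 := hjper a (u - m * (Per S : ℝ)) m
    rw [sub_add_cancel] at h2
    exact h2.symm
  -- paths
  have hpath : ∀ (p q : ℝ × Sh S) (L : ℝ), Conn p q L → ∃ γ : ℝ → X,
      (∀ s t, dist (γ s) (γ t) ≤ |s - t|) ∧ γ 0 = f p ∧ γ (κ * L) = f q := by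
    intro p q L h
    induction h with
    | move x y a =>
      have hsgn : ∃ σ : ℝ, |σ| = 1 ∧ x + σ * |x - y| = y := by
        rcases le_total x y with h | h
        · refine ⟨1, by norm_num, ?_⟩
          rw [abs_of_nonpos (by linarith)]
          ring
        · refine ⟨-1, by norm_num, ?_⟩
          rw [abs_of_nonneg (by linarith)]
          ring
      obtain ⟨σ, hσ, hσ'⟩ := hsgn
      refine ⟨fun t => f (x + σ * (t / κ), a), ?_, ?_, ?_⟩
      · intro s t
        refine (hj a _ _).trans (le_of_eq ?_)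
        rw [show x + σ * (s / κ) - (x + σ * (t / κ)) = σ * ((s - t) / κ) by ring, abs_mul, hσ,
          one_mul, abs_div, abs_of_pos hκ]
        field_simp
      · show f (x + σ * (0 / κ), a) = f (x, a)
        rw [zero_div, mul_zero, add_zero]
      · show f (x + σ * (κ * |x - y| / κ), a) = f (y, a)
        rw [mul_div_cancel_left₀ _ hκ.ne', hσ']
    | jump x a d v h =>
      refine ⟨fun _ => f (x, a), ?_, rfl, ?_⟩
      · intro s t
        rw [dist_self]
        exact abs_nonneg _
      · exact hmk _ _ (D_zero_trans (cn_of_conn (Conn.jump x a d v h)))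
    | @trans p q r L L' h1 h2 ih1 ih2 =>
      obtain ⟨γ₁, a1, a2, a3⟩ := ih1
      obtain ⟨γ₂, b1, b2, b3⟩ := ih2
      refine ⟨_, glue a1 b1 (c := κ * L) (by rw [a3, b2]), ?_, ?_⟩
      · have : (0 : ℝ) ≤ κ * L := mul_nonneg hκ.le (conn_nonneg h1)
        rw [if_pos this, a2]
      · rcases (conn_nonneg h2).eq_or_lt with h0 | h0
        · rw [← h0, add_zero, if_pos le_rfl, a3, ← b3, ← h0, mul_zero, b2]
        · have : ¬ κ * (L + L') ≤ κ * L := by
            push Not
            exact mul_lt_mul_of_pos_left (by linarith) hκ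
          rw [if_neg this, ← b3]
          congr 1
          ring
  have hgeo : Geo X := by
    apply geo_of_approx
    intro x y ε hε
    obtain ⟨p, rfl⟩ := hf x
    obtain ⟨⟨u, a⟩, rfl⟩ := hf y
    obtain ⟨L₁, -, hL₁⟩ := exists_cn hU p (u, a)
    obtain ⟨L, hL, hL'⟩ := exists_lt_of_csInf_lt (s := {L | Cn p (u, a) L}) ⟨L₁, hL₁⟩
      (show sInf {L | Cn p (u, a) L} < D p (u, a) + ε / κ by
        have : 0 < ε / κ := by positivity
        unfold D
        linarith)
    obtain ⟨m, hm⟩ := hL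
    obtain ⟨γ, h1, h2, h3⟩ := hpath _ _ _ hm
    refine ⟨γ, h1, h2, ?_⟩
    simp only at h3
    rw [hjper] at h3
    have h5 := h1 (dist (f p) (f (u, a))) (κ * L)
    rw [h3] at h5
    refine h5.trans ?_
    rw [hdist, ← mul_sub, abs_mul, abs_of_pos hκ]
    have h6 : D p (u, a) ≤ L := D_le ⟨m, hm⟩
    rw [abs_of_nonpos (by linarith)]
    have h7 : L - D p (u, a) ≤ ε / κ := by linarith
    calc κ * -(D p (u, a) - L) = κ * (L - D p (u, a)) := by ring
      _ ≤ κ * (ε / κ) := mul_le_mul_of_nonneg_left h7 hκ.le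
      _ = ε := by field_simp
  refine ⟨X, hX, hcomp, hgeo, ?_, ?_, ?_⟩
  · -- doubling
    intro x r hr
    obtain ⟨p, rfl⟩ := hf x
    obtain ⟨s, hs, hsq⟩ := hK S p (r / κ) (by positivity)
    classical
    refine ⟨s.image f, Finset.card_image_le.trans hs, ?_⟩
    intro y hy
    obtain ⟨q, rfl⟩ := hf y
    rw [Metric.mem_ball, hdist] at hy
    obtain ⟨c, hc, hcq⟩ := hsq q (by
      rw [D_comm, lt_div_iff₀ hκ, mul_comm]
      exact hy)
    rw [mem_iUnion₂]
    refine ⟨f c, Finset.mem_image_of_mem _ hc, ?_⟩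
    rw [Metric.mem_ball, hdist, D_comm]
    calc κ * D c q < κ * (r / κ / 2) := mul_lt_mul_of_pos_left hcq hκ
      _ = r / 2 := by field_simp
  · intro x y
    obtain ⟨p, rfl⟩ := hf x
    obtain ⟨q, rfl⟩ := hf y
    rw [hdist]
    calc κ * D p q ≤ κ * Bd S := mul_le_mul_of_nonneg_left (D_le_bd hU _ _) hκ.le
      _ = δ := by rw [hκd, div_mul_cancel₀ _ (bd_pos S).ne']
  · -- the robber
    choose out hout using hf
    have hDo : ∀ x y, κ * D (out x) (out y) = dist x y := by
      intro x y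
      rw [← hdist, hout, hout]
    let ext : (n : ℕ) → (Fin n → Fin k → X) → ℕ → Fin k → ℝ × Sh S :=
      fun n c m i => if h : m < n then out (c ⟨m, h⟩ i) else (0, fun _ => 0)
    have hext : ∀ (c : ℕ → Fin k → X) (n : ℕ),
        pos n (ext n fun i => c i) = pos n (fun m i => out (c m i)) := by
      intro c n
      apply hpos
      intro m hm
      funext i
      simp only [ext, dif_pos hm]
    have hplay : ∀ c : ℕ → Fin k → X, IsCopPlay (fun i => f (start i)) (fun _ => κ) c →
        (∀ n, D (pos n (fun m i => out (c m i))) (pos (n + 1) (fun m i => out (c m i))) ≤ 1) ∧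
        ∀ n i, 1 / 2 ≤ D (pos n (fun m i => out (c m i))) (out (c n i)) := by
      rintro c ⟨hc0, hc⟩
      apply hwin
      · intro i
        have h1 : κ * D (out (c 0 i)) (start i) = 0 := by
          rw [← hdist, hout, hc0, dist_self]
        exact (mul_eq_zero.1 h1).resolve_left hκ.ne'
      · intro n i
        have h1 := hc n i
        rw [← hDo] at h1
        exact le_of_mul_le_mul_left (by linarith) hκ
    refine ⟨{ start := fun i => f (start i)
              τ := fun _ => κ
              pos := fun n c => f (pos n (ext n c))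
              τ_pos := fun _ => hκ
              τ_sum := ?_
              legal := ?_ }, ?_⟩
    · simp only [Finset.sum_const, Finset.card_range, nsmul_eq_mul]
      exact tendsto_natCast_atTop_atTop.atTop_mul_const hκ
    · intro c hc n
      rw [hdist, hext, hext]
      calc κ * D (pos n (fun m i => out (c m i))) (pos (n + 1) (fun m i => out (c m i))) ≤ κ * 1 :=
            mul_le_mul_of_nonneg_left ((hplay c hc).1 n) hκ.le
        _ = κ := mul_one κ
    · intro c hc
      refine ⟨κ * (1 / 2), by positivity, fun n i => ?_⟩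
      show κ * (1 / 2) ≤ dist (f (pos n (ext n fun j => c j))) (c n i)
      have h1 := hdist (pos n (ext n fun j => c j)) (out (c n i))
      rw [hout] at h1
      rw [h1, hext]
      exact mul_le_mul_of_nonneg_left ((hplay c hc).2 n i) hκ.le

end Pool.Agent.K7.H15.CN
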