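import Pool.Agent.K7.H47.DM.Stm4

/-!
# Dope matrices: optimal matchings have the same classes (`StU`)
-/

set_option autoImplicit false

namespace Pool.Agent.K7.H15.D4

open Pool.Agent.K7.H47.DM4 Finset

theorem core {ι : Type} [Fintype ι] [DecidableEq ι] (t j cl : ι → ℕ) (ht : Function.Injective t)
    (σ σ' : Equiv.Perm ι) (hσ : Feas t j σ) (hσ' : Feas t j σ')
    (hopt : ∀ τ, Feas t j τ → Wt t cl τ ≤ Wt t cl σ) (r : ι)
    (hmin : ∀ r', t r' < t r → cl (σ.symm r') = cl (σ'.symm r'))
    (hlt : cl (σ'.symm r) < cl (σ.symm r)) : False := by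
  obtain ⟨κ, hκ⟩ : ∃ κ, κ = cl (σ'.symm r) := ⟨_, rfl⟩
  rw [← hκ] at hlt
  have hex : ∃ x, cl x = κ ∧ t (σ' x) ≤ t r ∧ t r < t (σ x) := by
    by_contra hno
    push Not at hno
    have h1 : (univ.filter fun r' => t r' ≤ t r ∧ cl (σ'.symm r') = κ).card ≤
        (univ.filter fun r' => t r' ≤ t r ∧ cl (σ.symm r') = κ).card := by
      apply Finset.card_le_card_of_injOn (fun r' => σ (σ'.symm r'))
      · intro r' hr'
        simp only [coe_filter, mem_univ, true_and, Set.mem_setOf_eq] at hr' ⊢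
        refine ⟨hno _ hr'.2 ?_, ?_⟩
        · rw [Equiv.apply_symm_apply]
          exact hr'.1
        · rw [Equiv.symm_apply_apply]
          exact hr'.2
      · intro a _ b _ hab
        exact σ'.symm.injective (σ.injective hab)
    have h2 : (univ.filter fun r' => t r' ≤ t r ∧ cl (σ.symm r') = κ) ⊂
        (univ.filter fun r' => t r' ≤ t r ∧ cl (σ'.symm r') = κ) := by
      rw [Finset.ssubset_iff_of_subset]
      · refine ⟨r, ?_, ?_⟩
        · rw [mem_filter]
          exact ⟨mem_univ _, le_refl _, hκ.symm⟩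
        · rw [mem_filter]
          rintro ⟨_, _, h3⟩
          omega
      · intro r' hr'
        rw [mem_filter] at hr' ⊢
        refine ⟨mem_univ _, hr'.2.1, ?_⟩
        have hne : r' ≠ r := by
          rintro rfl
          have := hr'.2.2
          omega
        have hlt' : t r' < t r := lt_of_le_of_ne hr'.2.1 (fun h => hne (ht h))
        rw [← hmin r' hlt']
        exact hr'.2.2
    have h3 := Finset.card_lt_card h2
    omega
  obtain ⟨x, hx1, hx2, hx3⟩ := hex
  obtain ⟨y, hy⟩ : ∃ y, y = σ.symm r := ⟨_, rfl⟩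
  have hyr : σ y = r := by rw [hy, Equiv.apply_symm_apply]
  rw [← hy] at hlt
  have hxy : x ≠ y := by
    rintro rfl
    rw [hyr] at hx3
    exact lt_irrefl _ hx3
  have hfe : Feas t j ((Equiv.swap x y).trans σ) := by
    intro c
    rw [Equiv.trans_apply]
    by_cases hc : c = x
    · rw [hc, Equiv.swap_apply_left, hyr]
      exact le_trans (hσ' x) hx2
    · by_cases hc' : c = y
      · rw [hc', Equiv.swap_apply_right]
        have := hσ y
        rw [hyr] at this
        omega
      · rw [Equiv.swap_apply_of_ne_of_ne hc hc']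
        exact hσ c
  have hw := hopt _ hfe
  have hsum : ∀ f : ι → ℕ, ∑ c, f c = f x + (f y + ∑ c ∈ (univ.erase x).erase y, f c) := by
    intro f
    rw [Finset.add_sum_erase _ f (by simp [hxy.symm]), Finset.add_sum_erase _ f (mem_univ x)]
  unfold Wt at hw
  rw [hsum, hsum (fun c => cl c * t (σ c))] at hw
  have hrest : ∑ c ∈ (univ.erase x).erase y, cl c * t (((Equiv.swap x y).trans σ) c) =
      ∑ c ∈ (univ.erase x).erase y, cl c * t (σ c) := by
    apply Finset.sum_congr rfl
    intro c hc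
    rw [mem_erase, mem_erase] at hc
    rw [Equiv.trans_apply, Equiv.swap_apply_of_ne_of_ne hc.2.1 hc.1]
  rw [hrest, Equiv.trans_apply, Equiv.trans_apply, Equiv.swap_apply_left,
    Equiv.swap_apply_right, hyr, hx1] at hw
  obtain ⟨a, ha⟩ := Nat.exists_eq_add_of_lt hlt
  obtain ⟨b, hb⟩ := Nat.exists_eq_add_of_lt hx3
  rw [ha, hb] at hw
  nlinarith

theorem u : StU := by
  intro ι _ _ t j cl ht σ σ' hσ hσ' hopt hopt'
  by_contra hne
  push Not at hne
  obtain ⟨r, hr, hmin⟩ := Finset.exists_min_image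
    (univ.filter fun r => cl (σ.symm r) ≠ cl (σ'.symm r)) t (by
      obtain ⟨r, hr⟩ := hne
      exact ⟨r, mem_filter.mpr ⟨mem_univ _, hr⟩⟩)
  rw [mem_filter] at hr
  have hmin' : ∀ r', t r' < t r → cl (σ.symm r') = cl (σ'.symm r') := by
    intro r' hr'
    by_contra hc
    have := hmin r' (mem_filter.mpr ⟨mem_univ _, hc⟩)
    omega
  rcases lt_or_gt_of_ne hr.2 with h | h
  · exact core t j cl ht σ' σ hσ' hσ hopt' r (fun r' hr' => (hmin' r' hr').symm) h
  · exact core t j cl ht σ σ' hσ hσ' hopt r hmin' h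

end Pool.Agent.K7.H15.D4
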