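import Pool.Agent.K7.H80.MD.Stm

/-!
# Multiset dimension of random graphs: concentration of the 2-walks into `W` (`StB`)
-/

set_option autoImplicit false

namespace Pool.Agent.K7.H15.MDDB

open Pool.Agent.K7.H80.MD Finset

open Classical in
theorem nbr_le_univ {n : ℕ} (G : SimpleGraph (Fin n)) (W : Finset (Fin n)) (v : Fin n) :
    nbr G W v ≤ nbr G univ v := by
  unfold nbr
  apply Finset.card_le_card
  intro u hu
  rw [mem_filter] at hu ⊢
  exact ⟨mem_univ _, hu.2⟩

open Classical in
theorem sum_walk2 {n : ℕ} (G : SimpleGraph (Fin n)) (U W : Finset (Fin n)) :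
    (∑ v ∈ U, walk2 G W v) = ∑ u, nbr G U u * nbr G W u := by
  unfold walk2
  simp only [Finset.sum_filter]
  rw [Finset.sum_comm]
  apply Finset.sum_congr rfl
  intro u _
  rw [← Finset.sum_filter, Finset.sum_const, smul_eq_mul]
  congr 1
  unfold nbr
  congr 1
  ext v
  simp [G.adj_comm]

theorem sum_abs {n : ℕ} (f : Fin n → ℝ) (B : ℝ) (h : ∀ U : Finset (Fin n), |∑ u ∈ U, f u| ≤ B) :
    ∑ u, |f u| ≤ 2 * B := by
  classical
  set P := univ.filter (fun u : Fin n => 0 ≤ f u) with hP
  have h1 : ∑ u ∈ P, |f u| ≤ B := by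
    rw [Finset.sum_congr rfl (fun u hu => abs_of_nonneg (mem_filter.mp hu).2)]
    exact le_trans (le_abs_self _) (h P)
  have h2 : ∑ u ∈ Pᶜ, |f u| ≤ B := by
    have h3 : ∀ u ∈ Pᶜ, |f u| = - f u := by
      intro u hu
      apply abs_of_nonpos
      rw [mem_compl, hP, mem_filter] at hu
      push Not at hu
      exact (hu (mem_univ _)).le
    rw [Finset.sum_congr rfl h3, Finset.sum_neg_distrib]
    exact le_trans (neg_le_abs _) (h Pᶜ)
  rw [← Finset.sum_add_sum_compl P]
  linarith

theorem t : StB := by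
  classical
  intro n p G hp hD1 hmix hdeg W
  obtain ⟨D, hD⟩ : ∃ D : ℝ, D = n * p := ⟨_, rfl⟩
  obtain ⟨r, hr⟩ : ∃ r : ℝ, r = Real.sqrt (n * p) := ⟨_, rfl⟩
  have hM : ∀ U W : Finset (Fin n),
      |(∑ u ∈ U, (nbr G W u : ℝ)) - p * U.card * W.card| ≤ 7 * n * r := by
    intro U W
    rw [hr]
    exact hmix U W
  have hdeg' : ∀ v, (nbr G univ v : ℝ) ≤ 8 * D := by
    intro v
    have := hdeg v
    rw [hD]
    linarith
  rw [← hr, ← hD]
  have hD1' : 1 ≤ D := by rw [hD]; exact hD1
  have hr1 : 1 ≤ r := by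
    rw [hr]
    exact Real.one_le_sqrt.mpr hD1
  have hn0 : (0 : ℝ) ≤ n := Nat.cast_nonneg n
  have hcard : ∀ U : Finset (Fin n), p * (U.card : ℝ) ≤ D := by
    intro U
    have h1 : (U.card : ℝ) ≤ n := by
      have := Finset.card_le_univ U
      rw [Fintype.card_fin] at this
      exact_mod_cast this
    rw [hD]
    nlinarith
  obtain ⟨c, hc⟩ : ∃ c : ℝ, c = p * ∑ u, (nbr G W u : ℝ) := ⟨_, rfl⟩
  refine ⟨c, ?_⟩
  have hδ : ∑ u : Fin n, |(nbr G W u : ℝ) - p * W.card| ≤ 2 * (7 * n * r) := by
    apply sum_abs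
    intro U
    have h1 : ∑ u ∈ U, ((nbr G W u : ℝ) - p * W.card) =
        (∑ u ∈ U, (nbr G W u : ℝ)) - p * U.card * W.card := by
      rw [Finset.sum_sub_distrib, Finset.sum_const, nsmul_eq_mul]
      ring
    rw [h1]
    exact hM U W
  -- the main estimate
  have hmain : ∀ U : Finset (Fin n),
      |(∑ v ∈ U, (walk2 G W v : ℝ)) - U.card * c| ≤ 119 * (n * (D * r)) := by
    intro U
    have h1 : (∑ v ∈ U, (walk2 G W v : ℝ)) = ∑ u, (nbr G U u : ℝ) * nbr G W u := by
      have := sum_walk2 G U W
      exact_mod_cast this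
    have h2 : (∑ v ∈ U, (walk2 G W v : ℝ)) - U.card * c =
        p * W.card * ((∑ u, (nbr G U u : ℝ)) - p * (univ : Finset (Fin n)).card * U.card) +
        ∑ u, ((nbr G U u : ℝ) - p * U.card) * ((nbr G W u : ℝ) - p * W.card) := by
      rw [h1, hc]
      have h3 : ∑ u, ((nbr G U u : ℝ) - p * U.card) * ((nbr G W u : ℝ) - p * W.card) =
          (∑ u, (nbr G U u : ℝ) * nbr G W u) - p * W.card * (∑ u, (nbr G U u : ℝ))
          - p * U.card * (∑ u, (nbr G W u : ℝ)) +
          p * (univ : Finset (Fin n)).card * U.card * (p * W.card) := by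
        have h4 : ∀ u : Fin n, ((nbr G U u : ℝ) - p * U.card) * ((nbr G W u : ℝ) - p * W.card) =
            (nbr G U u : ℝ) * nbr G W u - p * W.card * (nbr G U u : ℝ)
            - p * U.card * (nbr G W u : ℝ) + p * U.card * (p * W.card) := by
          intro u; ring
        rw [Finset.sum_congr rfl (fun u _ => h4 u), Finset.sum_add_distrib,
          Finset.sum_sub_distrib, Finset.sum_sub_distrib, ← Finset.mul_sum, ← Finset.mul_sum,
          Finset.sum_const, nsmul_eq_mul]
        ring
      rw [h3]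
      ring
    rw [h2]
    have h5 : |p * W.card * ((∑ u, (nbr G U u : ℝ)) -
        p * (univ : Finset (Fin n)).card * U.card)| ≤ D * (7 * n * r) := by
      rw [abs_mul]
      apply mul_le_mul _ (hM univ U) (abs_nonneg _) (by linarith)
      rw [abs_of_nonneg (by positivity)]
      exact hcard W
    have h6 : |∑ u, ((nbr G U u : ℝ) - p * U.card) * ((nbr G W u : ℝ) - p * W.card)| ≤
        8 * D * (2 * (7 * n * r)) := by
      calc |∑ u, ((nbr G U u : ℝ) - p * U.card) * ((nbr G W u : ℝ) - p * W.card)|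
          ≤ ∑ u, |((nbr G U u : ℝ) - p * U.card) * ((nbr G W u : ℝ) - p * W.card)| :=
            Finset.abs_sum_le_sum_abs _ _
        _ ≤ ∑ u, 8 * D * |(nbr G W u : ℝ) - p * W.card| := by
            apply Finset.sum_le_sum
            intro u _
            rw [abs_mul]
            apply mul_le_mul_of_nonneg_right _ (abs_nonneg _)
            have h7 : (nbr G U u : ℝ) ≤ 8 * D := by
              refine le_trans ?_ (hdeg' u)
              exact_mod_cast nbr_le_univ G U u
            have h8 := hcard U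
            have h9 : 0 ≤ p * (U.card : ℝ) := by positivity
            have h10 : (0 : ℝ) ≤ (nbr G U u : ℝ) := Nat.cast_nonneg _
            rw [abs_le]
            constructor <;> linarith
        _ = 8 * D * ∑ u, |(nbr G W u : ℝ) - p * W.card| := by rw [Finset.mul_sum]
        _ ≤ 8 * D * (2 * (7 * n * r)) := by
            apply mul_le_mul_of_nonneg_left hδ
            linarith
    calc |p * W.card * ((∑ u, (nbr G U u : ℝ)) - p * (univ : Finset (Fin n)).card * U.card) +
        ∑ u, ((nbr G U u : ℝ) - p * U.card) * ((nbr G W u : ℝ) - p * W.card)|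
        ≤ _ + _ := abs_add_le _ _
      _ ≤ D * (7 * n * r) + 8 * D * (2 * (7 * n * r)) := add_le_add h5 h6
      _ = 119 * (n * (D * r)) := by ring
  have hDr : 0 < D * r := by
    have h1 : 0 < D := by linarith
    have h2 : 0 < r := by linarith
    positivity
  -- the two exceptional sets
  have hup : ((univ.filter fun v : Fin n => 1064 * D * r < (walk2 G W v : ℝ) - c).card : ℝ)
      ≤ n / 8 := by
    set U := univ.filter fun v : Fin n => 1064 * D * r < (walk2 G W v : ℝ) - c with hU
    have h1 := le_trans (le_abs_self _) (hmain U)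
    have h2 : (U.card : ℝ) * (1064 * D * r) ≤ ∑ v ∈ U, ((walk2 G W v : ℝ) - c) := by
      rw [← nsmul_eq_mul]
      apply Finset.card_nsmul_le_sum
      intro v hv
      rw [hU, mem_filter] at hv
      exact hv.2.le
    rw [Finset.sum_sub_distrib, Finset.sum_const, nsmul_eq_mul] at h2
    have h3 : (D * r) * ((U.card : ℝ) * 1064) ≤ (D * r) * (119 * n) := by nlinarith
    have h4 := le_of_mul_le_mul_left h3 hDr
    linarith
  have hlo : ((univ.filter fun v : Fin n => 1064 * D * r < c - (walk2 G W v : ℝ)).card : ℝ)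
      ≤ n / 8 := by
    set U := univ.filter fun v : Fin n => 1064 * D * r < c - (walk2 G W v : ℝ) with hU
    have h1 := le_trans (neg_le_abs _) (hmain U)
    have h2 : (U.card : ℝ) * (1064 * D * r) ≤ ∑ v ∈ U, (c - (walk2 G W v : ℝ)) := by
      rw [← nsmul_eq_mul]
      apply Finset.card_nsmul_le_sum
      intro v hv
      rw [hU, mem_filter] at hv
      exact hv.2.le
    rw [Finset.sum_sub_distrib, Finset.sum_const, nsmul_eq_mul] at h2
    have h3 : (D * r) * ((U.card : ℝ) * 1064) ≤ (D * r) * (119 * n) := by nlinarith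
    have h4 := le_of_mul_le_mul_left h3 hDr
    linarith
  have hsub : (univ.filter fun v : Fin n => 1064 * D * r < |(walk2 G W v : ℝ) - c|) ⊆
      (univ.filter fun v : Fin n => 1064 * D * r < (walk2 G W v : ℝ) - c) ∪
      (univ.filter fun v : Fin n => 1064 * D * r < c - (walk2 G W v : ℝ)) := by
    intro v hv
    simp only [mem_filter, mem_univ, true_and, mem_union] at hv ⊢
    rcases lt_abs.mp hv with h | h
    · exact Or.inl h
    · right
      linarith
  have hle := le_trans (Finset.card_le_card hsub) (Finset.card_union_le _ _)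
  have hle' : ((univ.filter fun v : Fin n =>
      1064 * D * r < |(walk2 G W v : ℝ) - c|).card : ℝ) ≤
      (univ.filter fun v : Fin n => 1064 * D * r < (walk2 G W v : ℝ) - c).card +
      (univ.filter fun v : Fin n => 1064 * D * r < c - (walk2 G W v : ℝ)).card := by
    exact_mod_cast hle
  have hfin : ((univ.filter fun v : Fin n =>
      1064 * D * r < |(walk2 G W v : ℝ) - c|).card : ℝ) ≤ n / 4 := by linarith
  convert hfin using 3

end Pool.Agent.K7.H15.MDDB
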