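import Pool.Agent.K7.H25.SB.Stm

/-!
# Project SB, jobs BR and IND
-/

set_option autoImplicit false

open scoped MeasureTheory ENNReal Topology InnerProductSpace
open MeasureTheory Set Filter Metric

namespace Pool.Agent.K7.H15.SB

open Pool.Agent.R154.Steiner Pool.Agent.K7.H25.SB

/-- points of a segment -/
lemma mem_seg {E : Type*} [NormedAddCommGroup E] [NormedSpace ℝ E] {b v x : E} {r : ℝ}
    (hr : 0 ≤ r) : x ∈ segment ℝ b (b + r • v) ↔ ∃ s, 0 ≤ s ∧ s ≤ r ∧ x = b + s • v := by
  rw [segment_eq_image']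
  constructor
  · rintro ⟨θ, ⟨h0, h1⟩, rfl⟩
    refine ⟨θ * r, by positivity, ?_, ?_⟩
    · calc θ * r ≤ 1 * r := mul_le_mul_of_nonneg_right h1 hr
        _ = r := one_mul r
    · simp only [add_sub_cancel_left, smul_smul]
  · rintro ⟨s, h0, h1, rfl⟩
    rcases hr.eq_or_lt with h | h
    · refine ⟨0, by simp, ?_⟩
      have : s = 0 := by linarith
      simp [this]
    · refine ⟨s / r, ⟨by positivity, by rw [div_le_one h]; exact h1⟩, ?_⟩
      simp only [add_sub_cancel_left, smul_smul]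
      rw [div_mul_cancel₀ _ h.ne']

lemma dist_seg {E : Type*} [NormedAddCommGroup E] [NormedSpace ℝ E] {b v : E} {s : ℝ}
    (hv : ‖v‖ = 1) (hs : 0 ≤ s) : dist (b + s • v) b = s := by
  rw [dist_eq_norm, add_sub_cancel_left, norm_smul, hv, mul_one, Real.norm_of_nonneg hs]

/-- the part of a segment in a ball -/
lemma seg_ball {E : Type*} [NormedAddCommGroup E] [NormedSpace ℝ E] {b v x : E} {r r' : ℝ}
    (hv : ‖v‖ = 1) (hr : 0 ≤ r) (hr' : 0 ≤ r') {ρ : ℝ} (h1 : ρ ≤ r) (h2 : ρ ≤ r')
    (hx : x ∈ ball b ρ) :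
    x ∈ segment ℝ b (b + r • v) ↔ x ∈ segment ℝ b (b + r' • v) := by
  rw [mem_seg hr, mem_seg hr']
  constructor
  · rintro ⟨s, h3, h4, rfl⟩
    rw [mem_ball, dist_seg hv h3] at hx
    exact ⟨s, h3, by linarith, rfl⟩
  · rintro ⟨s, h3, h4, rfl⟩
    rw [mem_ball, dist_seg hv h3] at hx
    exact ⟨s, h3, by linarith, rfl⟩

/-- Job BR, in any space. -/
theorem br {E : Type*} [NormedAddCommGroup E] [NormedSpace ℝ E] (S S' : Set E) (b : E) (ρ : ℝ)
    (h : Br S b) (hρ : 0 < ρ) (hS : S' ∩ ball b ρ = S ∩ ball b ρ) : Br S' b := by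
  obtain ⟨F, r, hF, hv, hr, heq⟩ := h
  refine ⟨F, min r ρ, hF, hv, lt_min hr hρ, ?_⟩
  have h0 : 0 ≤ min r ρ := (lt_min hr hρ).le
  ext x
  constructor
  · rintro ⟨h1, h2⟩
    have h3 : x ∈ ball b ρ := ball_subset_ball (min_le_right _ _) h2
    have h4 : x ∈ ball b r := ball_subset_ball (min_le_left _ _) h2
    have h5 : x ∈ S ∩ ball b ρ := hS ▸ ⟨h1, h3⟩
    have h6 : x ∈ (⋃ v ∈ F, segment ℝ b (b + r • v)) ∩ ball b r := heq ▸ ⟨h5.1, h4⟩
    refine ⟨?_, h2⟩
    obtain ⟨v, hvF, hxv⟩ := mem_iUnion₂.1 h6.1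
    refine mem_iUnion₂.2 ⟨v, hvF, ?_⟩
    exact (seg_ball (hv v hvF) hr.le h0 (min_le_left _ _) le_rfl h2).1 hxv
  · rintro ⟨h1, h2⟩
    have h3 : x ∈ ball b ρ := ball_subset_ball (min_le_right _ _) h2
    have h4 : x ∈ ball b r := ball_subset_ball (min_le_left _ _) h2
    obtain ⟨v, hvF, hxv⟩ := mem_iUnion₂.1 h1
    have h5 : x ∈ (⋃ v ∈ F, segment ℝ b (b + r • v)) ∩ ball b r := by
      refine ⟨mem_iUnion₂.2 ⟨v, hvF, ?_⟩, h4⟩
      exact (seg_ball (hv v hvF) hr.le h0 (min_le_left _ _) le_rfl h2).2 hxv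
    rw [← heq] at h5
    have h6 : x ∈ S' ∩ ball b ρ := by
      rw [hS]
      exact ⟨h5.1, h3⟩
    exact ⟨h6.1, h2⟩

theorem stBr : StBr := fun S S' b ρ h hρ hS => br S S' b ρ h hρ hS

lemma fin_pos {α : Type*} {A : Set α} (hA : A.Finite) (f : α → ℝ) (hf : ∀ x ∈ A, 0 < f x) :
    ∃ ε : ℝ, 0 < ε ∧ ∀ x ∈ A, ε ≤ f x := by
  rcases A.eq_empty_or_nonempty with rfl | hne
  · exact ⟨1, one_pos, by simp⟩
  · obtain ⟨x, hx, h⟩ := Set.exists_min_image A f hA hne
    exact ⟨f x, hf x hx, h⟩

lemma nsq3 {t v n : Pl} (ht : ‖t‖ = 1) (hv : ‖v‖ = 1) (hn : ‖n‖ = 1) (a b c : ℝ) :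
    ‖a • t + b • v + c • n‖ ^ 2 = a ^ 2 + b ^ 2 + c ^ 2 + 2 * a * b * ⟪t, v⟫_ℝ +
      2 * a * c * ⟪t, n⟫_ℝ + 2 * b * c * ⟪v, n⟫_ℝ := by
  rw [norm_add_sq_real, norm_add_sq_real, norm_smul, norm_smul, norm_smul, ht, hv, hn,
    inner_add_left, real_inner_smul_left, real_inner_smul_left, real_inner_smul_left,
    real_inner_smul_right, real_inner_smul_right, real_inner_smul_right]
  simp only [mul_one, Real.norm_eq_abs, sq_abs]
  ring

lemma seg_join {b v : Pl} {m k : ℝ} (hm : 0 ≤ m) (hk : 0 ≤ k) :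
    segment ℝ b (b + (m + k) • v) = segment ℝ b (b + m • v) ∪
      segment ℝ (b + m • v) (b + m • v + k • v) := by
  ext x
  rw [mem_union, mem_seg (by linarith), mem_seg hm, mem_seg hk]
  constructor
  · rintro ⟨s, h0, h1, rfl⟩
    rcases le_total s m with h | h
    · exact Or.inl ⟨s, h0, h, rfl⟩
    · refine Or.inr ⟨s - m, by linarith, by linarith, ?_⟩
      rw [add_assoc, ← add_smul]
      congr 2
      ring
  · rintro (⟨s, h0, h1, rfl⟩ | ⟨s, h0, h1, rfl⟩)
    · exact ⟨s, h0, by linarith, rfl⟩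
    · refine ⟨m + s, by linarith, by linarith, ?_⟩
      rw [add_assoc, ← add_smul]

theorem ind (hStep : StStep) : StInd := by
  intro A₀ S₀ q u n κ δ B h
  have hsqrt : Real.sqrt 3 ^ 2 = 3 := Real.sq_sqrt (by norm_num)
  have hsq1 : 1 < Real.sqrt 3 := by
    rw [Real.lt_sqrt (by norm_num)]
    norm_num
  have hsq2 : Real.sqrt 3 < 2 := by
    rw [Real.sqrt_lt' (by norm_num)]
    norm_num
  have hu := h.hu
  have hn := h.hn
  have hun := h.hun
  have huu : ⟪u, u⟫_ℝ = 1 := by rw [real_inner_self_eq_norm_sq, hu]; norm_num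
  have hnn : ⟪n, n⟫_ℝ = 1 := by rw [real_inner_self_eq_norm_sq, hn]; norm_num
  have hnu : ⟪n, u⟫_ℝ = Real.sqrt 3 / 2 := by rw [real_inner_comm, hun]
  obtain ⟨v, hvd⟩ : ∃ v : Pl, v = Real.sqrt 3 • n - u := ⟨_, rfl⟩
  obtain ⟨t, htd⟩ : ∃ t : Pl, t = u - v := ⟨_, rfl⟩
  have htv : t + v = u := by rw [htd]; abel
  have hvn : ⟪v, n⟫_ℝ = Real.sqrt 3 / 2 := by
    rw [hvd, inner_sub_left, real_inner_smul_left, hnn, hun]
    ring
  have huv : ⟪u, v⟫_ℝ = 1 / 2 := by
    rw [hvd, inner_sub_right, real_inner_smul_right, hun, huu]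
    nlinarith
  have hvv : ⟪v, v⟫_ℝ = 1 := by
    have e : ⟪v, v⟫_ℝ = Real.sqrt 3 * ⟪v, n⟫_ℝ - ⟪v, u⟫_ℝ := by
      conv_lhs => rw [hvd]
      rw [inner_sub_right, real_inner_smul_right, ← hvd]
    rw [e, hvn, real_inner_comm, huv]
    nlinarith
  have hv : ‖v‖ = 1 := by
    rw [real_inner_self_eq_norm_sq] at hvv
    exact (pow_eq_one_iff_of_nonneg (norm_nonneg _) two_ne_zero).1 hvv
  have htn : ⟪t, n⟫_ℝ = 0 := by
    rw [htd, inner_sub_left, hun, hvn]
    ring
  have htvi : ⟪t, v⟫_ℝ = -(1 / 2) := by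
    rw [htd, inner_sub_left, huv, hvv]
    norm_num
  have hut : ⟪u, t⟫_ℝ = 1 / 2 := by
    rw [htd, inner_sub_right, huu, huv]
    norm_num
  have htt : ⟪t, t⟫_ℝ = 1 := by
    have e : ⟪t, t⟫_ℝ = ⟪t, u⟫_ℝ - ⟪t, v⟫_ℝ := by
      conv_lhs => rw [htd]
      rw [inner_sub_right, ← htd]
    rw [e, real_inner_comm, hut, htvi]
    norm_num
  have ht : ‖t‖ = 1 := by
    rw [real_inner_self_eq_norm_sq] at htt
    exact (pow_eq_one_iff_of_nonneg (norm_nonneg _) two_ne_zero).1 htt
  have hδ : 0 < δ := lt_of_lt_of_le h.κpos h.κle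
  obtain ⟨η, hη, hstep⟩ := hStep A₀ S₀ q u t v κ δ h.fin h.ne hu ht hv htv h.κpos h.κle h.cl h.con
    h.sub h.far h.loc h.uniq
  -- constants
  have hqn : dist q (q - n) = 1 := by
    rw [dist_eq_norm, sub_sub_cancel, hn]
  have hqB : ∀ b ∈ B, 0 < dist b q := by
    intro b hb
    rw [dist_pos]
    rintro rfl
    have := (h.br b hb).1
    linarith
  obtain ⟨ε₁, hε₁, h₁⟩ := fin_pos h.fin (fun x => dist x (q - n) - 1) (fun x hx => by
    have := h.out x hx
    linarith)
  obtain ⟨ε₂, hε₂, h₂⟩ := fin_pos B.finite_toSet (fun x => 1 - dist x (q - n)) (fun x hx => by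
    have := (h.br x hx).1
    linarith)
  obtain ⟨ε₃, hε₃, h₃⟩ := fin_pos B.finite_toSet (fun x => dist x q) hqB
  obtain ⟨s, hs0, hs1, hsη, hsδ, hse1, hse2, hse3⟩ : ∃ s : ℝ, 0 < s ∧ s ≤ 1 ∧ s < η ∧ s ≤ δ ∧
      s ≤ ε₁ ∧ s ≤ ε₂ ∧ 2 * s ≤ ε₃ := by
    obtain ⟨m, hm⟩ : ∃ m : ℝ, m = min 1 (min η (min δ (min ε₁ (min ε₂ ε₃)))) := ⟨_, rfl⟩
    have h0 : 0 < m := by
      rw [hm]
      exact lt_min one_pos (lt_min hη (lt_min hδ (lt_min hε₁ (lt_min hε₂ hε₃))))
    have a1 : m ≤ 1 := by rw [hm]; exact min_le_left _ _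
    have a2 : m ≤ η := by rw [hm]; exact (min_le_right _ _).trans (min_le_left _ _)
    have a3 : m ≤ δ := by
      rw [hm]; exact ((min_le_right _ _).trans (min_le_right _ _)).trans (min_le_left _ _)
    have a4 : m ≤ ε₁ := by
      rw [hm]
      exact (((min_le_right _ _).trans (min_le_right _ _)).trans (min_le_right _ _)).trans
        (min_le_left _ _)
    have a5 : m ≤ ε₂ := by
      rw [hm]
      exact ((((min_le_right _ _).trans (min_le_right _ _)).trans (min_le_right _ _)).trans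
        (min_le_right _ _)).trans (min_le_left _ _)
    have a6 : m ≤ ε₃ := by
      rw [hm]
      exact ((((min_le_right _ _).trans (min_le_right _ _)).trans (min_le_right _ _)).trans
        (min_le_right _ _)).trans (min_le_right _ _)
    exact ⟨m / 2, by linarith, by linarith, by linarith, by linarith, by linarith, by linarith,
      by linarith⟩
  obtain ⟨μ, hμ⟩ : ∃ μ : ℝ, μ = s ^ 2 / 4 := ⟨_, rfl⟩
  have hμ0 : 0 < μ := by rw [hμ]; positivity
  have hμs : μ ≤ s / 4 := by
    rw [hμ]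
    nlinarith
  have hs4 : s ^ 2 = 4 * μ := by rw [hμ]; ring
  obtain ⟨q', hq'⟩ : ∃ q' : Pl, q' = q + μ • v := ⟨_, rfl⟩
  have hdq : dist q' q = μ := by rw [hq']; exact dist_seg hv hμ0.le
  have hqS : q ∈ S₀ := by
    have : q ∈ S₀ ∩ closedBall q (2 * δ) := by
      rw [h.loc]
      exact right_mem_segment ℝ _ _
    exact this.1
  -- the three rays stay away from `q'`
  have hray : ∀ w : Pl, ‖w‖ = 1 → ⟪w, v⟫_ℝ = -(1 / 2) → ∀ σ : ℝ, 0 ≤ σ → μ ≤ dist (q + σ • w) q' := by
    intro w hw hwv σ hσ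
    have e : dist (q + σ • w) q' ^ 2 = σ ^ 2 + μ ^ 2 + σ * μ := by
      rw [dist_eq_norm, hq', show q + σ • w - (q + μ • v) = σ • w + (-μ) • v + (0 : ℝ) • v by
        rw [zero_smul, neg_smul]; abel, nsq3 hw hv hv, hwv]
      ring
    have h0 : (0 : ℝ) ≤ dist (q + σ • w) q' := dist_nonneg
    nlinarith [mul_nonneg hσ hμ0.le, sq_nonneg σ]
  have huv' : ⟪-u, v⟫_ℝ = -(1 / 2) := by rw [inner_neg_left, huv]
  have hnu' : ‖-u‖ = 1 := by rw [norm_neg, hu]
  have hseg0 : segment ℝ (q - (2 * δ) • u) q = segment ℝ q (q + (2 * δ) • (-u)) := by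
    rw [segment_symm, smul_neg, sub_eq_add_neg]
  have hB' : q ∉ B := by
    intro hqB'
    have := hqB q hqB'
    rw [dist_self] at this
    exact lt_irrefl _ this
  classical
  refine ⟨insert (q + s • t) A₀, S₀ ∪ segment ℝ q (q + s • t) ∪ segment ℝ q (q + μ • v), q', v,
    μ / 4, μ / 4, insert q B, ?_, Finset.card_insert_of_notMem hB'⟩
  have hcseg : ∀ a b : Pl, IsClosed (segment ℝ a b) := fun a b => by
    rw [segment_eq_image']
    exact (isCompact_Icc.image (by fun_prop)).isClosed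
  have hconseg : ∀ a b : Pl, IsConnected (segment ℝ a b) := fun a b =>
    ⟨⟨a, left_mem_segment ℝ a b⟩, (convex_segment a b).isPreconnected⟩
  refine
    { fin := h.fin.insert _
      ne := Set.insert_nonempty _ _
      hu := hv
      hn := hn
      hun := hvn
      κpos := by linarith
      κle := le_rfl
      cl := (h.cl.union (hcseg _ _)).union (hcseg _ _)
      con := ?_
      sub := ?_
      far := ?_
      loc := ?_
      uniq := ?_
      out := ?_
      br := ?_ }
  · refine (h.con.union ⟨q, hqS, left_mem_segment ℝ _ _⟩ (hconseg _ _)).union ?_ (hconseg _ _)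
    exact ⟨q, Or.inl hqS, left_mem_segment ℝ _ _⟩
  · rintro x (rfl | hx)
    · exact Or.inl (Or.inr (right_mem_segment ℝ _ _))
    · exact Or.inl (Or.inl (h.sub hx))
  · rintro x (rfl | hx)
    · have := hray t ht htvi s hs0.le
      linarith
    · have h4 := h.far x hx
      have h5 := dist_triangle x q' q
      rw [hdq] at h5
      linarith
  · -- the ball around `q'`
    ext x
    constructor
    · rintro ⟨(hx | hx) | hx, hxb⟩
      · exfalso
        rw [mem_closedBall] at hxb
        have h4 : dist x q ≤ 2 * δ := by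
          have := dist_triangle x q' q
          rw [hdq] at this
          linarith
        have h5 : x ∈ S₀ ∩ closedBall q (2 * δ) := ⟨hx, h4⟩
        rw [h.loc, hseg0, mem_seg (by linarith)] at h5
        obtain ⟨σ, h6, h7, rfl⟩ := h5
        have := hray (-u) hnu' huv' σ h6
        linarith
      · exfalso
        rw [mem_closedBall] at hxb
        rw [mem_seg hs0.le] at hx
        obtain ⟨σ, h6, h7, rfl⟩ := hx
        have := hray t ht htvi σ h6
        linarith
      · rw [mem_closedBall] at hxb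
        rw [mem_seg hμ0.le] at hx
        obtain ⟨σ, h6, h7, rfl⟩ := hx
        have h8 : dist (q + σ • v) q' = μ - σ := by
          rw [hq', dist_eq_norm, show q + σ • v - (q + μ • v) = (σ - μ) • v by
            rw [sub_smul]; abel, norm_smul, hv, mul_one, Real.norm_of_nonpos (by linarith)]
          ring
        rw [h8] at hxb
        have h9 : q' = q' - (2 * (μ / 4)) • v + (μ / 2) • v := by
          rw [show 2 * (μ / 4) = μ / 2 by ring]
          abel
        rw [h9, show q' - (2 * (μ / 4)) • v + (μ / 2) • v - (2 * (μ / 4)) • v =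
          q' - (2 * (μ / 4)) • v by rw [← h9], mem_seg (by linarith)]
        refine ⟨σ - μ / 2, by linarith, by linarith, ?_⟩
        rw [hq', show 2 * (μ / 4) = μ / 2 by ring, sub_smul]
        have : μ • v = (μ / 2) • v + (μ / 2) • v := by rw [← add_smul]; congr 1; ring
        rw [this]
        abel
    · intro hx
      have h9 : q' = q' - (2 * (μ / 4)) • v + (μ / 2) • v := by
        rw [show 2 * (μ / 4) = μ / 2 by ring]
        abel
      rw [h9, show q' - (2 * (μ / 4)) • v + (μ / 2) • v - (2 * (μ / 4)) • v =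
        q' - (2 * (μ / 4)) • v by rw [← h9], mem_seg (by linarith)] at hx
      obtain ⟨σ, h6, h7, rfl⟩ := hx
      have h10 : q' - (2 * (μ / 4)) • v + σ • v = q + (μ / 2 + σ) • v := by
        rw [hq', show 2 * (μ / 4) = μ / 2 by ring, add_smul]
        have : μ • v = (μ / 2) • v + (μ / 2) • v := by rw [← add_smul]; congr 1; ring
        rw [this]
        abel
      rw [h10]
      refine ⟨Or.inr ((mem_seg hμ0.le).2 ⟨μ / 2 + σ, by linarith, by linarith, rfl⟩), ?_⟩
      rw [mem_closedBall, hq', dist_eq_norm, show q + (μ / 2 + σ) • v - (q + μ • v) =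
        (μ / 2 + σ - μ) • v by rw [sub_smul]; abel, norm_smul, hv, mul_one,
        Real.norm_of_nonpos (by linarith)]
      linarith
  · -- uniqueness
    have h4 := hstep s (μ + μ / 4) hs0 hsη (by linarith) (by linarith)
    rw [seg_join hμ0.le (by linarith : 0 ≤ μ / 4), Set.insert_comm, ← hq'] at h4
    have h5 : q + (μ + μ / 4) • v = q' + (μ / 4) • v := by
      rw [hq', add_smul, add_assoc]
    rw [h5, ← union_assoc] at h4
    rw [← hq']
    exact h4
  · rintro x (rfl | hx)
    · have e : dist (q + s • t) (q' - n) ^ 2 = s ^ 2 + μ ^ 2 + 1 + s * μ - Real.sqrt 3 * μ := by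
        rw [dist_eq_norm, hq', show q + s • t - (q + μ • v - n) = s • t + (-μ) • v + (1 : ℝ) • n by
          rw [one_smul, neg_smul]; abel, nsq3 ht hv hn, htvi, htn, hvn]
        ring
      have h0 : (0 : ℝ) ≤ dist (q + s • t) (q' - n) := dist_nonneg
      have h5 : Real.sqrt 3 * μ ≤ 2 * μ := mul_le_mul_of_nonneg_right hsq2.le hμ0.le
      have h6 : 0 ≤ s * μ := by positivity
      nlinarith [sq_nonneg μ]
    · have h4 := h₁ x hx
      have h5 : dist x (q - n) ≤ dist x (q' - n) + μ := by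
        refine (dist_triangle x (q' - n) (q - n)).trans ?_
        have : dist (q' - n) (q - n) = μ := by rw [dist_sub_right, hdq]
        rw [this]
      linarith
  · intro b hb
    rw [Finset.mem_insert] at hb
    rcases hb with rfl | hb
    · constructor
      · have e : dist b (q' - n) ^ 2 = μ ^ 2 + 1 - Real.sqrt 3 * μ := by
          rw [dist_eq_norm, hq', show b - (b + μ • v - n) = (0 : ℝ) • t + (-μ) • v + (1 : ℝ) • n by
            rw [one_smul, neg_smul, zero_smul]; abel, nsq3 ht hv hn, hvn]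
          ring
        have h0 : (0 : ℝ) ≤ dist b (q' - n) := dist_nonneg
        have h5 : 1 * μ < Real.sqrt 3 * μ := mul_lt_mul_of_pos_right hsq1 hμ0
        have h6 : μ ^ 2 ≤ μ := by nlinarith
        nlinarith
      · have hne1 : -u ≠ t := by
          intro h4
          rw [← h4, inner_neg_right, huu] at hut
          norm_num at hut
        have hne2 : -u ≠ v := by
          intro h4
          rw [← h4, inner_neg_right, huu] at huv
          norm_num at huv
        have hne3 : t ≠ v := by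
          intro h4
          rw [h4, hvv] at htvi
          norm_num at htvi
        refine ⟨{-u, t, v}, μ, ?_, ?_, hμ0, ?_⟩
        · rw [Finset.card_eq_three.2 ⟨-u, t, v, hne1, hne2, hne3, rfl⟩]
        · intro w hw
          rw [Finset.mem_insert, Finset.mem_insert, Finset.mem_singleton] at hw
          rcases hw with rfl | rfl | rfl
          · exact hnu'
          · exact ht
          · exact hv
        · ext x
          constructor
          · rintro ⟨(hx | hx) | hx, hxb⟩
            · refine ⟨mem_iUnion₂.2 ⟨-u, by simp, ?_⟩, hxb⟩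
              have h5 : x ∈ S₀ ∩ closedBall b (2 * δ) :=
                ⟨hx, (mem_ball.1 hxb).le.trans (by linarith)⟩
              rw [h.loc, hseg0] at h5
              exact (seg_ball hnu' (by linarith) hμ0.le (by linarith) le_rfl hxb).1 h5
            · refine ⟨mem_iUnion₂.2 ⟨t, by simp, ?_⟩, hxb⟩
              exact (seg_ball ht hs0.le hμ0.le (by linarith) le_rfl hxb).1 hx
            · exact ⟨mem_iUnion₂.2 ⟨v, by simp, hx⟩, hxb⟩
          · rintro ⟨hx, hxb⟩
            refine ⟨?_, hxb⟩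
            obtain ⟨w, hw, hxw⟩ := mem_iUnion₂.1 hx
            rw [Finset.mem_insert, Finset.mem_insert, Finset.mem_singleton] at hw
            rcases hw with rfl | rfl | rfl
            · left; left
              have h5 : x ∈ S₀ ∩ closedBall b (2 * δ) := by
                rw [h.loc, hseg0]
                exact (seg_ball hnu' (by linarith) hμ0.le (by linarith) le_rfl hxb).2 hxw
              exact h5.1
            · left; right
              exact (seg_ball ht hs0.le hμ0.le (by linarith) le_rfl hxb).2 hxw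
            · right
              exact hxw
    · constructor
      · have h4 := h₂ b hb
        have h5 : dist b (q' - n) ≤ dist b (q - n) + μ := by
          refine (dist_triangle b (q - n) (q' - n)).trans ?_
          have : dist (q - n) (q' - n) = μ := by rw [dist_sub_right, dist_comm, hdq]
          rw [this]
        linarith
      · refine br S₀ _ b s (h.br b hb).2 hs0 ?_
        have h4 := h₃ b hb
        have hfar : ∀ w : Pl, ‖w‖ = 1 → ∀ r, 0 ≤ r → r ≤ s → ∀ x ∈ segment ℝ q (q + r • w),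
            x ∉ ball b s := by
          intro w hw r hr hrs x hx hxb
          rw [mem_seg hr] at hx
          obtain ⟨σ, h6, h7, rfl⟩ := hx
          rw [mem_ball] at hxb
          have h8 := dist_triangle b (q + σ • w) q
          have h9 : dist b (q + σ • w) = dist (q + σ • w) b := dist_comm _ _
          rw [dist_seg hw h6, h9] at h8
          linarith
        ext x
        constructor
        · rintro ⟨(hx | hx) | hx, hxb⟩
          · exact ⟨hx, hxb⟩
          · exact absurd hxb (hfar t ht s hs0.le le_rfl x hx)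
          · exact absurd hxb (hfar v hv μ hμ0.le (by linarith) x hx)
        · rintro ⟨hx, hxb⟩
          exact ⟨Or.inl (Or.inl hx), hxb⟩

end Pool.Agent.K7.H15.SB
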