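import Pool.Agent.K7.H14.TG.Stm

/-!
# Walks in finite digraphs: the upper bound by the girth (`StUp1`)
-/

set_option autoImplicit false

namespace Pool.Agent.K7.H15.TGUP1

open Pool.Agent.K7.H14.TG

variable {α : Type} {G : α → α → Prop}

theorem wk_add {a b : ℕ} {x y z : α} (h1 : Wk G a x y) (h2 : Wk G b y z) :
    Wk G (a + b) x z := by
  induction b generalizing z with
  | zero =>
    have h : y = z := h2
    subst h
    exact h1
  | succ b ih =>
    obtain ⟨u, hu, hg⟩ := h2
    exact ⟨u, ih hu, hg⟩

theorem wk_split {a b : ℕ} {x z : α} (h : Wk G (a + b) x z) :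
    ∃ y, Wk G a x y ∧ Wk G b y z := by
  induction b generalizing z with
  | zero => exact ⟨z, h, rfl⟩
  | succ b ih =>
    obtain ⟨u, hu, hg⟩ := h
    obtain ⟨y, hy1, hy2⟩ := ih hu
    exact ⟨y, hy1, u, hy2, hg⟩

theorem grow [Fintype α] (B : ℕ → Finset α) (hmono : ∀ t, B t ⊆ B (t + 1))
    (h0 : (B 0).Nonempty) (hst : ∀ t, B (t + 1) ⊆ B t → B t = Finset.univ) (t : ℕ) :
    min (t + 1) (Fintype.card α) ≤ (B t).card := by
  induction t with
  | zero =>
    have := Finset.card_pos.mpr h0
    omega
  | succ t ih =>
    by_cases h : B (t + 1) ⊆ B t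
    · have h1 := hst t h
      have h2 : B (t + 1) = Finset.univ := by
        apply Finset.eq_univ_of_forall
        intro x
        apply hmono t
        rw [h1]
        exact Finset.mem_univ x
      rw [h2, Finset.card_univ]
      exact min_le_right _ _
    · have h1 : B t ⊂ B (t + 1) := ⟨hmono t, h⟩
      have h2 := Finset.card_lt_card h1
      omega

theorem grow_univ [Fintype α] (B : ℕ → Finset α) (hmono : ∀ t, B t ⊆ B (t + 1))
    (h0 : (B 0).Nonempty) (hst : ∀ t, B (t + 1) ⊆ B t → B t = Finset.univ) :
    B (Fintype.card α - 1) = Finset.univ := by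
  have h := grow B hmono h0 hst (Fintype.card α - 1)
  have h1 : (B (Fintype.card α - 1)).card ≤ Fintype.card α := Finset.card_le_univ _
  have h2 : 1 ≤ Fintype.card α := by
    obtain ⟨x, _⟩ := h0
    exact Fintype.card_pos_iff.mpr ⟨x⟩
  rw [← Finset.card_eq_iff_eq_univ]
  omega

/-- every vertex has a predecessor -/
theorem pred {j : α} {s : ℕ} (hP : Prim G j) (hs : 1 ≤ s) (hx : ∃ x, Wk G s x x) (y : α) :
    ∃ u, G u y := by
  obtain ⟨x, hx⟩ := hx
  obtain ⟨k, hk⟩ := hP.conn x y
  have h : Wk G (s + k) x y := wk_add hx hk
  obtain ⟨n, hn⟩ : ∃ n, s + k = n + 1 := ⟨s + k - 1, by omega⟩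
  rw [hn] at h
  obtain ⟨u, _, hu⟩ := h
  exact ⟨u, hu⟩

theorem full_mono {x : α} (hp : ∀ y, ∃ u, G u y) {k : ℕ} (hk : ∀ y, Wk G k x y) (m : ℕ)
    (hm : k ≤ m) : ∀ y, Wk G m x y := by
  induction m, hm using Nat.le_induction with
  | base => exact hk
  | succ m _ ih =>
    intro y
    obtain ⟨u, hu⟩ := hp y
    exact ⟨u, ih u, hu⟩

theorem t : StUp1 := by
  classical
  intro α _ G j s hP hs hx hg k hk y
  have hp : ∀ y, ∃ u, G u y := pred hP hs hx
  -- the vertices on closed walks of length `s`
  set Z : Finset α := Finset.univ.filter (fun z => Wk G s z z) with hZ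
  have hZcard : s ≤ Z.card := by
    obtain ⟨x, hx⟩ := hx
    have hw : ∀ i : Fin s, ∃ w, Wk G i.1 x w ∧ Wk G (s - i.1) w x := by
      intro i
      apply wk_split
      have : i.1 + (s - i.1) = s := by have := i.2; omega
      rw [this]
      exact hx
    choose w hw1 hw2 using hw
    have hinj : Function.Injective w := by
      have key : ∀ a b : Fin s, a.1 < b.1 → w a ≠ w b := by
        intro a b hab he
        have h1 : Wk G (a.1 + (s - b.1)) x x := by
          apply wk_add (hw1 a)
          rw [he]
          exact hw2 b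
        have hb := b.2
        exact hg _ x (by omega) (by omega) h1
      intro a b he
      rcases lt_trichotomy a.1 b.1 with h | h | h
      · exact absurd he (key a b h)
      · exact Fin.ext h
      · exact absurd he.symm (key b a h)
    have h1 : (Finset.univ.image w).card = s := by
      rw [Finset.card_image_of_injective _ hinj, Finset.card_univ, Fintype.card_fin]
    rw [← h1]
    apply Finset.card_le_card
    intro z hz
    rw [Finset.mem_image] at hz
    obtain ⟨i, _, rfl⟩ := hz
    rw [hZ, Finset.mem_filter]
    refine ⟨Finset.mem_univ _, ?_⟩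
    have h2 : Wk G ((s - i.1) + i.1) (w i) (w i) := wk_add (hw2 i) (hw1 i)
    have h3 : (s - i.1) + i.1 = s := by have := i.2; omega
    rwa [h3] at h2
  -- from `Z` one can continue inside `Z`
  have hcont : ∀ n, ∀ z, Wk G s z z → ∃ z', Wk G s z' z' ∧ Wk G n z z' := by
    intro n
    induction n with
    | zero => intro z hz; exact ⟨z, hz, rfl⟩
    | succ n ih =>
      intro z hz
      obtain ⟨z', hz', hw⟩ := ih z hz
      have h1 : Wk G (1 + (s - 1)) z' z' := by
        have : 1 + (s - 1) = s := by omega
        rw [this]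
        exact hz'
      obtain ⟨u, hu1, hu2⟩ := wk_split h1
      refine ⟨u, ?_, ?_⟩
      · have h2 := wk_add hu2 hu1
        have h3 : s - 1 + 1 = s := by omega
        rwa [h3] at h2
      · exact wk_add hw hu1
  -- `Z` is reached within `c - s` steps
  have hreach : ∃ z, Wk G s z z ∧ ∃ k0, k0 ≤ Fintype.card α - s ∧ Wk G k0 j z := by
    set B : ℕ → Finset α := fun t => Finset.univ.filter (fun y => ∃ k, k ≤ t ∧ Wk G k j y) with hB
    have hmono : ∀ t, B t ⊆ B (t + 1) := by
      intro t y hy
      simp only [hB, Finset.mem_filter, Finset.mem_univ, true_and] at hy ⊢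
      obtain ⟨k, hk, hw⟩ := hy
      exact ⟨k, by omega, hw⟩
    have h0 : (B 0).Nonempty := by
      refine ⟨j, ?_⟩
      simp only [hB, Finset.mem_filter, Finset.mem_univ, true_and]
      exact ⟨0, le_refl _, rfl⟩
    have hst : ∀ t, B (t + 1) ⊆ B t → B t = Finset.univ := by
      intro t ht
      have hall : ∀ m y, Wk G m j y → y ∈ B t := by
        intro m
        induction m with
        | zero =>
          intro y hy
          have : j = y := hy
          subst this
          simp only [hB, Finset.mem_filter, Finset.mem_univ, true_and]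
          exact ⟨0, by omega, rfl⟩
        | succ m ih =>
          intro y hy
          obtain ⟨u, hu, hgu⟩ := hy
          have h1 := ih u hu
          apply ht
          simp only [hB, Finset.mem_filter, Finset.mem_univ, true_and] at h1 ⊢
          obtain ⟨k, hk, hw⟩ := h1
          exact ⟨k + 1, by omega, u, hw, hgu⟩
      apply Finset.eq_univ_of_forall
      intro y
      obtain ⟨m, hm⟩ := hP.conn j y
      exact hall m y hm
    have hcard := grow B hmono h0 hst (Fintype.card α - s)
    have hZc : Z.card ≤ Fintype.card α := Finset.card_le_univ _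
    by_contra hne
    have hdisj : Disjoint Z (B (Fintype.card α - s)) := by
      rw [Finset.disjoint_left]
      intro z hz hzB
      apply hne
      rw [hZ, Finset.mem_filter] at hz
      simp only [hB, Finset.mem_filter, Finset.mem_univ, true_and] at hzB
      obtain ⟨k0, hk0, hw⟩ := hzB
      exact ⟨z, hz.2, k0, hk0, hw⟩
    have h1 := Finset.card_union_of_disjoint hdisj
    have h2 : (Z ∪ B (Fintype.card α - s)).card ≤ Fintype.card α := Finset.card_le_univ _
    omega
  obtain ⟨z, hz, k0, hk0, hw0⟩ := hreach
  obtain ⟨z', hz', hw'⟩ := hcont (Fintype.card α - s - k0) z hz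
  have hjz : Wk G (Fintype.card α - s) j z' := by
    have h1 := wk_add hw0 hw'
    have h2 : k0 + (Fintype.card α - s - k0) = Fintype.card α - s := by omega
    rwa [h2] at h1
  -- the sets reached from `z'` in a multiple of `s` steps
  set X : ℕ → Finset α := fun t => Finset.univ.filter (fun y => Wk G (s * t) z' y) with hX
  have hXmono : ∀ t, X t ⊆ X (t + 1) := by
    intro t y hy
    simp only [hX, Finset.mem_filter, Finset.mem_univ, true_and] at hy ⊢
    have h1 := wk_add hz' hy
    have h2 : s + s * t = s * (t + 1) := by ring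
    rwa [h2] at h1
  have hX0 : (X 0).Nonempty := by
    refine ⟨z', ?_⟩
    simp only [hX, Finset.mem_filter, Finset.mem_univ, true_and, Nat.mul_zero]
    rfl
  have hXst : ∀ t, X (t + 1) ⊆ X t → X t = Finset.univ := by
    intro t ht
    have hall : ∀ m, X (t + m) ⊆ X t := by
      intro m
      induction m with
      | zero => exact fun y hy => hy
      | succ m ih =>
        intro y hy
        apply ht
        simp only [hX, Finset.mem_filter, Finset.mem_univ, true_and] at hy ⊢
        have h2 : s * (t + (m + 1)) = s * (t + m) + s := by ring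
        rw [h2] at hy
        obtain ⟨u, hu1, hu2⟩ := wk_split hy
        have hu3 : u ∈ X (t + m) := by
          simp only [hX, Finset.mem_filter, Finset.mem_univ, true_and]
          exact hu1
        have hu4 := ih hu3
        simp only [hX, Finset.mem_filter, Finset.mem_univ, true_and] at hu4
        have h3 := wk_add hu4 hu2
        have h4 : s * t + s = s * (t + 1) := by ring
        rwa [h4] at h3
    obtain ⟨d, hd⟩ := hP.conn z' j
    obtain ⟨k1, hk1⟩ := hP.full
    have hfull : ∀ y, Wk G (d + k1) z' y := fun y => wk_add hd (hk1 y)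
    have hle : d + k1 ≤ s * (t + (d + k1)) := by
      calc d + k1 ≤ 1 * (t + (d + k1)) := by omega
        _ ≤ s * (t + (d + k1)) := Nat.mul_le_mul_right _ hs
    apply Finset.eq_univ_of_forall
    intro y
    apply hall (d + k1)
    simp only [hX, Finset.mem_filter, Finset.mem_univ, true_and]
    exact full_mono hp hfull _ hle y
  have hXu := grow_univ X hXmono hX0 hXst
  have hfin : ∀ y, Wk G (Fintype.card α - s + s * (Fintype.card α - 1)) j y := by
    intro y
    apply wk_add hjz
    have h1 : y ∈ X (Fintype.card α - 1) := by rw [hXu]; exact Finset.mem_univ y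
    simp only [hX, Finset.mem_filter, Finset.mem_univ, true_and] at h1
    exact h1
  exact full_mono hp hfin k hk y

end Pool.Agent.K7.H15.TGUP1
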