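import Pool.Agent.K7.H81.TQ.Stm2

/-! # Project TQ, job SML: small distances, even `p` (distances below `1/3`) -/

set_option autoImplicit false

noncomputable section

namespace Pool.Agent.K7.H15.TQSML

open Pool.Agent.K7.H81.TQ

/-- every element of the circle has a representative of absolute value equal to its norm -/
theorem rep (a : UnitAddCircle) : ∃ y : ℝ, (y : UnitAddCircle) = a ∧ |y| = ‖a‖ := by
  obtain ⟨t, rfl⟩ := QuotientAddGroup.mk_surjective a
  refine ⟨t - round t, ?_, ?_⟩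
  · have h : ((round t : ℝ) : UnitAddCircle) = 0 := by
      rw [AddCircle.coe_eq_zero_iff]
      exact ⟨round t, by simp⟩
    have h2 : ((t - round t : ℝ) : UnitAddCircle) = (t : UnitAddCircle) - ((round t : ℝ) : UnitAddCircle) := by
      rfl
    rw [h2, h, sub_zero]
  · exact (UnitAddCircle.norm_eq (x := t)).symm

theorem diff {a b : UnitAddCircle} {y z : ℝ} (hy : (y : UnitAddCircle) = a) (hz : (z : UnitAddCircle) = b)
    (h1 : |y| < 1 / 3) (h2 : |z| < 1 / 3) (h3 : ‖a - b‖ < 1 / 3) : |y - z| = ‖a - b‖ := by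
  have e : a - b = ((y - z : ℝ) : UnitAddCircle) := by
    rw [← hy, ← hz]
    rfl
  rw [e, UnitAddCircle.norm_eq] at h3 ⊢
  have hk : round (y - z) = 0 := by
    rw [abs_lt] at h1 h2 h3
    have h4 : (round (y - z) : ℝ) < 1 := by linarith [h1.1, h1.2, h2.1, h2.2, h3.1, h3.2]
    have h5 : (-1 : ℝ) < (round (y - z) : ℝ) := by linarith [h1.1, h1.2, h2.1, h2.2, h3.1, h3.2]
    have h6 : round (y - z) < 1 := by exact_mod_cast h4
    have h7 : -1 < round (y - z) := by exact_mod_cast h5
    omega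
  rw [hk]
  simp

/-- the strong form: distances below `1/3`, bound `(p - 1) n + 2` -/
theorem sml (hP : StPoly) (p n : ℕ) (lam : ℝ) (S : Finset (Fin n → UnitAddCircle)) (hp : Even p)
    (hp2 : 2 ≤ p) (hlam : 0 < lam) (hlam' : lam < 1 / 3)
    (hS : ∀ x ∈ S, ∀ y ∈ S, x ≠ y → ∑ i, ‖x i - y i‖ ^ p = lam ^ p) :
    S.card ≤ (p - 1) * n + 2 := by
  classical
  have hp0 : p ≠ 0 := by omega
  rcases S.eq_empty_or_nonempty with h0 | ⟨o, ho⟩
  · subst h0
    simp
  have hb : ∀ x ∈ S, ∀ y ∈ S, ∀ i, ‖x i - y i‖ < 1 / 3 := by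
    intro x hx y hy i
    by_cases hxy : x = y
    · subst hxy
      simp
    · have h1 : ‖x i - y i‖ ^ p ≤ lam ^ p := by
        rw [← hS x hx y hy hxy]
        exact Finset.single_le_sum (f := fun i => ‖x i - y i‖ ^ p)
          (fun j _ => pow_nonneg (norm_nonneg _) p) (Finset.mem_univ i)
      have h2 : ‖x i - y i‖ ≤ lam := (pow_le_pow_iff_left₀ (norm_nonneg _) hlam.le hp0).1 h1
      linarith
  choose r hr1 hr2 using rep
  let Y : (Fin n → UnitAddCircle) → Fin n → ℝ := fun x i => r (x i - o i)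
  have hY : ∀ x ∈ S, ∀ y ∈ S, ∀ i, |Y x i - Y y i| = ‖x i - y i‖ := by
    intro x hx y hy i
    have e : x i - y i = (x i - o i) - (y i - o i) := by abel
    have h := diff (hr1 (x i - o i)) (hr1 (y i - o i))
      (by rw [hr2]; exact hb x hx o ho i) (by rw [hr2]; exact hb y hy o ho i)
      (by rw [← e]; exact hb x hx y hy i)
    rw [e]
    exact h
  let z : Fin S.card → Fin n → ℝ := fun a => Y (S.equivFin.symm a).1
  refine hP p n S.card (lam ^ p) z hp hp2 (pow_pos hlam p) ?_
  intro a b hab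
  have hne : (S.equivFin.symm a).1 ≠ (S.equivFin.symm b).1 := by
    intro h
    exact hab (S.equivFin.symm.injective (Subtype.ext h))
  rw [← hS _ (S.equivFin.symm a).2 _ (S.equivFin.symm b).2 hne]
  refine Finset.sum_congr rfl fun i _ => ?_
  rw [← hY _ (S.equivFin.symm a).2 _ (S.equivFin.symm b).2 i, hp.pow_abs]

theorem t : StSml := by
  intro hP p n lam S hp hp2 _ hlam hlam' hS
  have h := sml hP p n lam S hp hp2 hlam (by linarith) hS
  have h2 : (p - 1) * n + 2 ≤ 2 * (p - 1) * n + 4 := by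
    nlinarith [Nat.zero_le ((p - 1) * n)]
  exact h.trans h2

end Pool.Agent.K7.H15.TQSML
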